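import Mathlib

set_option autoImplicit false

/-! Constant weight codes: raising the weight by one when two words share at most one point. -/

namespace Pool.Agent.Hhelper49.CWC

variable {V : Type*} [DecidableEq V]

/-- The size-preserving conclusion: `m` sets of size `k` pairwise meeting in at most `l` points. -/
def Has (V : Type*) [DecidableEq V] (m k l : ℕ) : Prop :=
  ∃ C : Finset (Finset V), C.card = m ∧ (∀ s ∈ C, s.card = k) ∧
    ∀ s ∈ C, ∀ t ∈ C, s ≠ t → (s ∩ t).card ≤ l

theorem has_of_map (C : Finset (Finset V)) (f : Finset V → Finset V) (k l : ℕ) (hlt : l < k)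
    (h1 : ∀ s ∈ C, (f s).card = k)
    (h2 : ∀ s ∈ C, ∀ t ∈ C, s ≠ t → (f s ∩ f t).card ≤ l) : Has V C.card k l := by
  refine ⟨C.image f, ?_, ?_, ?_⟩
  · apply Finset.card_image_of_injOn
    intro s hs t ht hst
    by_contra hne
    have h := h2 s hs t ht hne
    have hst' : f s = f t := hst
    rw [← hst', Finset.inter_self, h1 s hs] at h
    omega
  · intro s hs
    obtain ⟨a, ha, rfl⟩ := Finset.mem_image.mp hs
    exact h1 a ha
  · intro s hs t ht hne
    obtain ⟨a, ha, rfl⟩ := Finset.mem_image.mp hs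
    obtain ⟨b, hb, rfl⟩ := Finset.mem_image.mp ht
    exact h2 a ha b hb (fun h => hne (by rw [h]))

theorem ext_lemma (C : Finset (Finset V)) (w : ℕ) (hw : 2 ≤ w) (hC : ∀ s ∈ C, s.card = w)
    (hI : ∀ s ∈ C, ∀ t ∈ C, s ≠ t → (s ∩ t).card ≤ 1) (p : V) (Y : Finset V → Finset V)
    (h1 : ∀ s ∈ C, p ∈ s → (Y s).card = 2 ∧ Disjoint (Y s) s)
    (h2 : ∀ s ∈ C, p ∈ s → ∀ t ∈ C, p ∉ t → (Y s ∩ t).card ≤ 1)
    (h3 : ∀ s ∈ C, p ∈ s → ∀ t ∈ C, p ∈ t → s ≠ t →
      ((s ∩ Y t) ∪ (Y s ∩ t) ∪ (Y s ∩ Y t)).card ≤ 2) : Has V C.card (w + 1) 2 := by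
  have mixed : ∀ s ∈ C, p ∈ s → ∀ t ∈ C, p ∉ t →
      ((s.erase p ∪ Y s) ∩ insert p t).card ≤ 2 := by
    intro s hs hps t ht hpt
    have hpY : p ∉ Y s := fun h => (Finset.disjoint_left.mp (h1 s hs hps).2 h) hps
    have hsub : (s.erase p ∪ Y s) ∩ insert p t ⊆ (s ∩ t) ∪ (Y s ∩ t) := by
      intro x hx
      simp only [Finset.mem_inter, Finset.mem_union, Finset.mem_erase, Finset.mem_insert] at hx ⊢
      obtain ⟨hx1, hx2⟩ := hx
      have hxp : x ≠ p := by
        rintro rfl
        rcases hx1 with h | h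
        · exact h.1 rfl
        · exact hpY h
      have hxt : x ∈ t := by
        rcases hx2 with h | h
        · exact absurd h hxp
        · exact h
      rcases hx1 with h | h
      · exact Or.inl ⟨h.2, hxt⟩
      · exact Or.inr ⟨h, hxt⟩
    have hne : s ≠ t := by
      rintro rfl
      exact hpt hps
    calc ((s.erase p ∪ Y s) ∩ insert p t).card ≤ ((s ∩ t) ∪ (Y s ∩ t)).card :=
          Finset.card_le_card hsub
      _ ≤ (s ∩ t).card + (Y s ∩ t).card := Finset.card_union_le _ _
      _ ≤ 1 + 1 := Nat.add_le_add (hI s hs t ht hne) (h2 s hs hps t ht hpt)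
  apply has_of_map C (fun s => if p ∈ s then s.erase p ∪ Y s else insert p s) (w + 1) 2 (by omega)
  · intro s hs
    by_cases hps : p ∈ s
    · simp only [hps, if_true]
      have hd := (h1 s hs hps).2
      rw [Finset.card_union_of_disjoint, Finset.card_erase_of_mem hps, hC s hs, (h1 s hs hps).1]
      · omega
      · rw [Finset.disjoint_left]
        intro x hx hxY
        exact Finset.disjoint_left.mp hd hxY (Finset.mem_of_mem_erase hx)
    · simp only [hps, if_false]
      rw [Finset.card_insert_of_notMem hps, hC s hs]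
  · intro s hs t ht hne
    by_cases hps : p ∈ s
    · by_cases hpt : p ∈ t
      · simp only [hps, hpt, if_true]
        refine le_trans (Finset.card_le_card ?_) (h3 s hs hps t ht hpt hne)
        intro x hx
        simp only [Finset.mem_inter, Finset.mem_union, Finset.mem_erase] at hx ⊢
        obtain ⟨hx1, hx2⟩ := hx
        rcases hx1 with ⟨hxp, hxs⟩ | hxY
        · rcases hx2 with ⟨_, hxt⟩ | hxYt
          · exfalso
            have hle := hI s hs t ht hne
            rw [Finset.card_le_one] at hle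
            exact hxp (hle x (Finset.mem_inter.mpr ⟨hxs, hxt⟩) p (Finset.mem_inter.mpr ⟨hps, hpt⟩))
          · exact Or.inl (Or.inl ⟨hxs, hxYt⟩)
        · rcases hx2 with ⟨_, hxt⟩ | hxYt
          · exact Or.inl (Or.inr ⟨hxY, hxt⟩)
          · exact Or.inr ⟨hxY, hxYt⟩
      · simp only [hps, hpt, if_true, if_false]
        exact mixed s hs hps t ht hpt
    · by_cases hpt : p ∈ t
      · simp only [hps, hpt, if_true, if_false]
        rw [Finset.inter_comm]
        exact mixed t ht hpt s hs hps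
      · simp only [hps, hpt, if_false]
        rw [← Finset.insert_inter_distrib]
        calc (insert p (s ∩ t)).card ≤ (s ∩ t).card + 1 := Finset.card_insert_le _ _
          _ ≤ 1 + 1 := Nat.add_le_add_right (hI s hs t ht hne) 1

/-- Three blocks through `p`. -/
theorem case_three (C : Finset (Finset V)) (w : ℕ) (hw : 3 ≤ w) (hC : ∀ s ∈ C, s.card = w)
    (hI : ∀ s ∈ C, ∀ t ∈ C, s ≠ t → (s ∩ t).card ≤ 1) (p : V) (a b c : Finset V)
    (ha : a ∈ C) (hb : b ∈ C) (hc : c ∈ C) (hpa : p ∈ a) (hpb : p ∈ b) (hpc : p ∈ c)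
    (hab : a ≠ b) (hac : a ≠ c) (hbc : b ≠ c) : Has V C.card (w + 1) 2 := by
  have hX : ∀ t : Finset V, ∃ X : Finset V, t ∈ C → p ∈ t → X ⊆ t.erase p ∧ X.card = 2 := by
    intro t
    by_cases h : t ∈ C ∧ p ∈ t
    · have : 2 ≤ (t.erase p).card := by
        rw [Finset.card_erase_of_mem h.2, hC t h.1]
        omega
      obtain ⟨X, hX1, hX2⟩ := Finset.exists_subset_card_eq this
      exact ⟨X, fun _ _ => ⟨hX1, hX2⟩⟩
    · exact ⟨∅, fun h1 h2 => absurd ⟨h1, h2⟩ h⟩
  choose X hX using hX
  let σ : Finset V → Finset V := fun s => if s = a then b else if s = b then c else a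
  have hσC : ∀ s, σ s ∈ C ∧ p ∈ σ s := by
    intro s
    simp only [σ]
    split_ifs
    · exact ⟨hb, hpb⟩
    · exact ⟨hc, hpc⟩
    · exact ⟨ha, hpa⟩
  have hσ1 : ∀ s, σ s ≠ s := by
    intro s
    simp only [σ]
    split_ifs with h1 h2
    · rw [h1]; exact hab.symm
    · rw [h2]; exact hbc.symm
    · exact fun h => h1 h.symm
  have hσ2 : ∀ s, σ (σ s) ≠ s := by
    intro s
    by_cases h1 : s = a
    · subst h1
      have : σ s = b := by simp [σ]
      rw [this]
      have : σ b = c := by simp [σ, hab.symm]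
      rw [this]
      exact hac.symm
    · by_cases h2 : s = b
      · subst h2
        have : σ s = c := by simp [σ, h1]
        rw [this]
        have : σ c = a := by simp [σ, hac.symm, hbc.symm]
        rw [this]
        exact hab
      · have : σ s = a := by simp [σ, h1, h2]
        rw [this]
        have : σ a = b := by simp [σ]
        rw [this]
        exact fun h => h2 h.symm
  -- blocks through p only share p
  have hshare : ∀ s ∈ C, p ∈ s → ∀ t ∈ C, p ∈ t → s ≠ t → ∀ x, x ∈ s → x ∈ t → x = p := by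
    intro s hs hps t ht hpt hne x hxs hxt
    have hle := hI s hs t ht hne
    rw [Finset.card_le_one] at hle
    exact hle x (Finset.mem_inter.mpr ⟨hxs, hxt⟩) p (Finset.mem_inter.mpr ⟨hps, hpt⟩)
  have hXmem : ∀ t ∈ C, p ∈ t → ∀ x ∈ X t, x ≠ p ∧ x ∈ t := by
    intro t ht hpt x hx
    have := (hX t ht hpt).1 hx
    exact ⟨Finset.ne_of_mem_erase this, Finset.mem_of_mem_erase this⟩
  refine ext_lemma C w (by omega) hC hI p (fun s => X (σ s)) ?_ ?_ ?_
  · intro s hs hps
    obtain ⟨h1, h2⟩ := hσC s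
    refine ⟨(hX _ h1 h2).2, ?_⟩
    rw [Finset.disjoint_left]
    intro x hx hxs
    obtain ⟨hxp, hxt⟩ := hXmem _ h1 h2 x hx
    exact hxp (hshare s hs hps (σ s) h1 h2 (hσ1 s).symm x hxs hxt)
  · intro s hs hps t ht hpt
    obtain ⟨h1, h2⟩ := hσC s
    have hne : σ s ≠ t := by
      rintro h
      exact hpt (h ▸ h2)
    refine le_trans (Finset.card_le_card ?_) (hI (σ s) h1 t ht hne)
    intro x hx
    rw [Finset.mem_inter] at hx ⊢
    exact ⟨(hXmem _ h1 h2 x hx.1).2, hx.2⟩
  · intro s hs hps t ht hpt hne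
    obtain ⟨s1, s2⟩ := hσC s
    obtain ⟨t1, t2⟩ := hσC t
    by_cases hst : σ s = t
    · -- everything lies in X (σ s)
      refine le_trans (Finset.card_le_card (t := X (σ s)) ?_) (hX _ s1 s2).2.le
      intro x hx
      simp only [Finset.mem_union, Finset.mem_inter] at hx
      rcases hx with (⟨hxs, hxY⟩ | ⟨hxY, _⟩) | ⟨hxY, _⟩
      · exfalso
        obtain ⟨hxp, hxt⟩ := hXmem _ t1 t2 x hxY
        have hne' : s ≠ σ t := by
          rw [← hst]
          exact (hσ2 s).symm
        exact hxp (hshare s hs hps (σ t) t1 t2 hne' x hxs hxt)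
      · exact hxY
      · exact hxY
    · refine le_trans (Finset.card_le_card (t := X (σ t)) ?_) (hX _ t1 t2).2.le
      intro x hx
      simp only [Finset.mem_union, Finset.mem_inter] at hx
      rcases hx with (⟨hxs, hxY⟩ | ⟨hxY, hxt⟩) | ⟨_, hxY⟩
      · exact hxY
      · exfalso
        obtain ⟨hxp, hxt'⟩ := hXmem _ s1 s2 x hxY
        exact hxp (hshare (σ s) s1 s2 t ht hpt hst x hxt' hxt)
      · exact hxY

end Pool.Agent.Hhelper49.CWC
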