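import Pool.Agent.Hhelper49.CWC.Main

set_option autoImplicit false

/-! Packing upper bound, Graham-Sloane and Gilbert lower bounds, and the resulting steps. -/

namespace Pool.Agent.Hhelper49.CWC

open Polynomial

/-- Packing (Johnson) bound: words pairwise meeting in fewer than `t` points. -/
theorem packing {V : Type*} [DecidableEq V] [Fintype V] (C : Finset (Finset V)) (w t : ℕ)
    (hC : ∀ s ∈ C, s.card = w)
    (hI : ∀ s ∈ C, ∀ t' ∈ C, s ≠ t' → (s ∩ t').card < t) :
    C.card * w.choose t ≤ (Fintype.card V).choose t := by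
  have h1 : (C.biUnion (fun s => Finset.powersetCard t s)).card = C.card * w.choose t := by
    rw [Finset.card_biUnion]
    · rw [Finset.sum_congr rfl (fun s hs => by rw [Finset.card_powersetCard, hC s hs]),
        Finset.sum_const, smul_eq_mul]
    · intro s hs u hu hne
      show Disjoint (Finset.powersetCard t s) (Finset.powersetCard t u)
      rw [Finset.disjoint_left]
      intro x hx hx'
      rw [Finset.mem_powersetCard] at hx hx'
      have h2 := Finset.card_le_card (Finset.subset_inter hx.1 hx'.1)
      have h3 := hI s hs u hu hne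
      omega
  rw [← h1, ← Finset.card_univ, ← Finset.card_powersetCard]
  apply Finset.card_le_card
  intro x hx
  obtain ⟨s, -, hxs⟩ := Finset.mem_biUnion.mp hx
  rw [Finset.mem_powersetCard] at hxs ⊢
  exact ⟨Finset.subset_univ _, hxs.2⟩

/-- Reduction of one step of the conjecture to a lower bound. -/
theorem step_of (n d w δ : ℕ) (hn : w + 1 ≤ n) (hd1 : d ≤ 2 * δ) (hd2 : 2 * δ ≤ d + 1)
    (C : Finset (Finset (Fin n))) (hC : ∀ s ∈ C, s.card = w)
    (hD : ∀ s ∈ C, ∀ t ∈ C, s ≠ t → d ≤ (symmDiff s t).card)
    (H : δ ≤ w → C.card * w.choose (w - δ + 1) ≤ n.choose (w - δ + 1) →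
      ∃ C' : Finset (Finset (Fin n)), C.card ≤ C'.card ∧ (∀ s ∈ C', s.card = w + 1) ∧
      (∀ s ∈ C', ∀ t ∈ C', s ≠ t → (s ∩ t).card + δ ≤ w + 1)) :
    ∃ C' : Finset (Finset (Fin n)), C'.card = C.card ∧ (∀ s ∈ C', s.card = w + 1) ∧
      (∀ s ∈ C', ∀ t ∈ C', s ≠ t → d ≤ (symmDiff s t).card) := by
  by_cases hC1 : C.card ≤ 1
  · have huniv : w + 1 ≤ (Finset.univ : Finset (Fin n)).card := by
      rw [Finset.card_univ, Fintype.card_fin]
      omega
    obtain ⟨u, -, hu⟩ := Finset.exists_subset_card_eq huniv
    rcases Nat.le_one_iff_eq_zero_or_eq_one.mp hC1 with h | h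
    · exact ⟨∅, by rw [h]; rfl, by simp, by simp⟩
    · refine ⟨{u}, by rw [h]; rfl, ?_, ?_⟩
      · intro s hs
        rw [Finset.mem_singleton] at hs
        rw [hs, hu]
      · intro s hs t ht hne
        rw [Finset.mem_singleton] at hs ht
        exact absurd (hs.trans ht.symm) hne
  push Not at hC1
  have hI : ∀ s ∈ C, ∀ t ∈ C, s ≠ t → (s ∩ t).card + δ ≤ w := by
    intro s hs t ht hne
    have ha := card_symmDiff_add s t
    have hb := hD s hs t ht hne
    rw [hC s hs, hC t ht] at ha
    omega
  obtain ⟨s0, hs0, t0, ht0, hne0⟩ := Finset.one_lt_card.mp hC1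
  have h0 := hI s0 hs0 t0 ht0 hne0
  have hp := packing C w (w - δ + 1) hC (fun s hs t ht hne => by
    have := hI s hs t ht hne
    omega)
  rw [Fintype.card_fin] at hp
  obtain ⟨C', h1, h2, h3⟩ := H (by omega) hp
  obtain ⟨C'', h4, h5⟩ := Finset.exists_subset_card_eq h1
  refine ⟨C'', h5, fun s hs => h2 s (h4 hs), ?_⟩
  intro s hs t ht hne
  have ha := card_symmDiff_add s t
  have hb := h3 s (h4 hs) t (h4 ht) hne
  rw [h2 s (h4 hs), h2 t (h4 ht)] at ha
  omega

/-- Pigeonhole: some fibre of an invariant is large. -/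
theorem fibre {α β : Type*} [DecidableEq α] [Fintype β] [DecidableEq β] [Nonempty β]
    (S : Finset α) (T : α → β) :
    ∃ b : β, S.card ≤ (S.filter (fun a => T a = b)).card * Fintype.card β := by
  by_contra hcon
  push Not at hcon
  have h1 : S.card = ∑ b : β, (S.filter (fun a => T a = b)).card :=
    Finset.card_eq_sum_card_fiberwise (fun a _ => Finset.mem_coe.mpr (Finset.mem_univ (T a)))
  have h2 : ∑ b : β, (S.filter (fun a => T a = b)).card * Fintype.card β
      < ∑ _b : β, S.card :=
    Finset.sum_lt_sum_of_nonempty Finset.univ_nonempty (fun b _ => hcon b)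
  rw [← Finset.sum_mul, ← h1, Finset.sum_const, Finset.card_univ, smul_eq_mul, mul_comm] at h2
  exact lt_irrefl _ h2

/-- Sum code (distance four). -/
theorem sum_code (n k : ℕ) (hn : 0 < n) :
    ∃ C' : Finset (Finset (Fin n)), n.choose k ≤ C'.card * n ∧ (∀ s ∈ C', s.card = k) ∧
      (∀ s ∈ C', ∀ t ∈ C', s ≠ t → (s ∩ t).card + 2 ≤ k) := by
  have : NeZero n := ⟨hn.ne'⟩
  obtain ⟨b, hb⟩ := fibre (Finset.powersetCard k (Finset.univ : Finset (Fin n)))
    (fun s => ∑ a ∈ s, (a : Fin n))
  rw [Finset.card_powersetCard, Finset.card_univ, Fintype.card_fin] at hb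
  refine ⟨_, hb, ?_, ?_⟩
  · intro s hs
    rw [Finset.mem_filter, Finset.mem_powersetCard] at hs
    exact hs.1.2
  · intro s hs t ht hne
    rw [Finset.mem_filter, Finset.mem_powersetCard] at hs ht
    by_contra hcon
    push Not at hcon
    have hsk := hs.1.2
    have htk := ht.1.2
    have hle : (s ∩ t).card ≤ k := by
      rw [← hsk]; exact Finset.card_le_card Finset.inter_subset_left
    have hlt : (s ∩ t).card ≠ k := by
      intro h
      have h3 : s ∩ t = s := Finset.eq_of_subset_of_card_le Finset.inter_subset_left (by omega)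
      have h4 : s ∩ t = t := Finset.eq_of_subset_of_card_le Finset.inter_subset_right (by omega)
      exact hne (h3.symm.trans h4)
    have h1 : (s \ t).card = 1 := by
      have := Finset.card_sdiff_add_card_inter s t
      omega
    have h2 : (t \ s).card = 1 := by
      have := Finset.card_sdiff_add_card_inter t s
      rw [Finset.inter_comm] at this
      omega
    obtain ⟨x, hx⟩ := Finset.card_eq_one.mp h1
    obtain ⟨y, hy⟩ := Finset.card_eq_one.mp h2
    have h5 : ∑ a ∈ s, a = ∑ a ∈ s ∩ t, a + x := by
      rw [← Finset.sum_inter_add_sum_sdiff s t (fun a => a), hx, Finset.sum_singleton]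
    have h6 : ∑ a ∈ t, a = ∑ a ∈ s ∩ t, a + y := by
      rw [← Finset.sum_inter_add_sum_sdiff t s (fun a => a), hy, Finset.sum_singleton,
        Finset.inter_comm]
    have h7 : x = y := by
      have h8 : ∑ a ∈ s, a = ∑ a ∈ t, a := hs.2.trans ht.2.symm
      rw [h5, h6] at h8
      exact add_left_cancel h8
    have hxs : x ∈ s \ t := by rw [hx]; exact Finset.mem_singleton_self x
    have hyt : y ∈ t \ s := by rw [hy]; exact Finset.mem_singleton_self y
    rw [Finset.mem_sdiff] at hxs hyt
    rw [h7] at hxs
    exact hyt.2 hxs.1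

/-- Graham-Sloane codes. -/
theorem gs_code (n k δ p : ℕ) (hp : p.Prime) (hnp : n ≤ p) :
    ∃ C' : Finset (Finset (Fin n)), n.choose k ≤ C'.card * p ^ (δ - 1) ∧
      (∀ s ∈ C', s.card = k) ∧
      (∀ s ∈ C', ∀ t ∈ C', s ≠ t → (s ∩ t).card + δ ≤ k) := by
  have : Fact p.Prime := ⟨hp⟩
  let f : Fin n → ZMod p := fun a => ((a : ℕ) : ZMod p)
  have hf : Function.Injective f := by
    intro a b hab
    have h1 := (ZMod.natCast_eq_natCast_iff' _ _ _).mp hab
    rw [Nat.mod_eq_of_lt (lt_of_lt_of_le a.isLt hnp),
      Nat.mod_eq_of_lt (lt_of_lt_of_le b.isLt hnp)] at h1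
    exact Fin.ext h1
  let P : Finset (Fin n) → (ZMod p)[X] := fun s => ∏ a ∈ s, (X - C (f a))
  have hmonic : ∀ s, (P s).Monic := fun s => monic_prod_of_monic _ _ (fun a _ => monic_X_sub_C _)
  have hdeg : ∀ s, (P s).natDegree = s.card := by
    intro s
    simp only [P]
    rw [natDegree_prod_of_monic _ _ (fun a _ => monic_X_sub_C _)]
    simp
  obtain ⟨b, hb⟩ := fibre (Finset.powersetCard k (Finset.univ : Finset (Fin n)))
    (fun s => (fun i : Fin (δ - 1) => (P s).coeff (k - 1 - i)))
  rw [Finset.card_powersetCard, Finset.card_univ, Fintype.card_fin, Fintype.card_fun,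
    Fintype.card_fin, ZMod.card] at hb
  refine ⟨_, hb, ?_, ?_⟩
  · intro s hs
    rw [Finset.mem_filter, Finset.mem_powersetCard] at hs
    exact hs.1.2
  · intro s hs t ht hne
    rw [Finset.mem_filter, Finset.mem_powersetCard] at hs ht
    have hsk := hs.1.2
    have htk := ht.1.2
    have hcoef : ∀ i : Fin (δ - 1), (P s).coeff (k - 1 - i) = (P t).coeff (k - 1 - i) := by
      intro i
      exact congrFun (hs.2.trans ht.2.symm) i
    have hR : P s - P t ≠ 0 := by
      intro h
      have h1 : P s = P t := sub_eq_zero.mp h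
      obtain ⟨x, hxs, hxt⟩ : ∃ x, x ∈ s ∧ x ∉ t := by
        by_contra hcon
        push Not at hcon
        exact hne (Finset.eq_of_subset_of_card_le (fun x hx => hcon x hx) (by omega))
      have h2 : (P s).eval (f x) = 0 := by
        simp only [P, eval_prod]
        exact Finset.prod_eq_zero hxs (by simp)
      have h3 : (P t).eval (f x) ≠ 0 := by
        simp only [P, eval_prod]
        rw [Finset.prod_ne_zero_iff]
        intro y hy
        simp only [eval_sub, eval_X, eval_C]
        rw [sub_ne_zero]
        intro h4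
        exact hxt (hf h4 ▸ hy)
      rw [h1] at h2
      exact h3 h2
    have hdvd : P (s ∩ t) ∣ P s - P t := by
      apply dvd_sub
      · exact Finset.prod_dvd_prod_of_subset _ _ _ Finset.inter_subset_left
      · exact Finset.prod_dvd_prod_of_subset _ _ _ Finset.inter_subset_right
    have h1 : (s ∩ t).card ≤ (P s - P t).natDegree := by
      rw [← hdeg]
      exact natDegree_le_of_dvd hdvd hR
    set N := (P s - P t).natDegree with hN
    have hlead : (P s - P t).coeff N ≠ 0 := by
      rw [hN, coeff_natDegree]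
      exact leadingCoeff_ne_zero.mpr hR
    have hNk : N ≤ k := by
      refine (natDegree_sub_le _ _).trans ?_
      rw [hdeg, hdeg, hsk, htk, max_self]
    have hNk' : N ≠ k := by
      intro h
      apply hlead
      rw [coeff_sub, h]
      have h2 := (hmonic s).coeff_natDegree
      have h3 := (hmonic t).coeff_natDegree
      rw [hdeg, hsk] at h2
      rw [hdeg, htk] at h3
      rw [h2, h3, sub_self]
    have hNδ : N + δ ≤ k := by
      by_contra hcon
      push Not at hcon
      apply hlead
      rw [coeff_sub, sub_eq_zero]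
      have := hcoef ⟨k - 1 - N, by omega⟩
      have h2 : k - 1 - (k - 1 - N) = N := by omega
      simp only [h2] at this
      exact this
    omega

/-- Gilbert (greedy) bound. -/
theorem gilbert (n k t : ℕ) (ht : t ≤ k) (hkn : k ≤ n) :
    ∃ C' : Finset (Finset (Fin n)), n.choose t ≤ C'.card * (k.choose t) ^ 2 ∧
      (∀ s ∈ C', s.card = k) ∧
      (∀ s ∈ C', ∀ u ∈ C', s ≠ u → (s ∩ u).card < t) := by
  classical
  let S : Finset (Finset (Finset (Fin n))) :=
    (Finset.powersetCard k (Finset.univ : Finset (Fin n))).powerset.filter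
      (fun C => ∀ s ∈ C, ∀ u ∈ C, s ≠ u → (s ∩ u).card < t)
  have hS : S.Nonempty := ⟨∅, by simp [S]⟩
  obtain ⟨C', hC'S, hmax⟩ := Finset.exists_max_image S Finset.card hS
  simp only [S, Finset.mem_filter, Finset.mem_powerset] at hC'S
  obtain ⟨hC'1, hC'2⟩ := hC'S
  have hcard : ∀ s ∈ C', s.card = k := fun s hs => (Finset.mem_powersetCard.mp (hC'1 hs)).2
  -- every k-set meets a member in at least t points
  have hcover : ∀ u : Finset (Fin n), u.card = k → ∃ s ∈ C', t ≤ (s ∩ u).card := by
    intro u hu
    by_contra hcon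
    push Not at hcon
    have huC : u ∉ C' := by
      intro h
      have := hcon u h
      rw [Finset.inter_self, hu] at this
      omega
    have hmem : insert u C' ∈ S := by
      simp only [S, Finset.mem_filter, Finset.mem_powerset]
      refine ⟨?_, ?_⟩
      · intro s hs
        rcases Finset.mem_insert.mp hs with rfl | hs
        · exact Finset.mem_powersetCard.mpr ⟨Finset.subset_univ _, hu⟩
        · exact hC'1 hs
      · intro s hs v hv hne
        rcases Finset.mem_insert.mp hs with hs' | hs'
        · rcases Finset.mem_insert.mp hv with hv' | hv'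
          · exact absurd (hs'.trans hv'.symm) hne
          · rw [hs', Finset.inter_comm]
            exact hcon v hv'
        · rcases Finset.mem_insert.mp hv with hv' | hv'
          · rw [hv']
            exact hcon s hs'
          · exact hC'2 s hs' v hv' hne
    have h1 := hmax _ hmem
    rw [Finset.card_insert_of_notMem huC] at h1
    omega
  let T : Finset (Finset (Fin n)) := C'.biUnion (fun s => Finset.powersetCard t s)
  have hTcard : T.card ≤ C'.card * k.choose t := by
    refine (Finset.card_biUnion_le).trans ?_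
    rw [Finset.sum_congr rfl (fun s hs => by rw [Finset.card_powersetCard, hcard s hs]),
      Finset.sum_const, smul_eq_mul]
  have hsup : ∀ x ∈ T, ((Finset.powersetCard k (Finset.univ : Finset (Fin n))).filter
      (fun u => x ⊆ u)).card ≤ (n - t).choose (k - t) := by
    intro x hx
    obtain ⟨s, -, hxs⟩ := Finset.mem_biUnion.mp hx
    rw [Finset.mem_powersetCard] at hxs
    have h1 : (Finset.powersetCard (k - t) xᶜ).card = (n - t).choose (k - t) := by
      rw [Finset.card_powersetCard, Finset.card_compl, Fintype.card_fin, hxs.2]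
    rw [← h1]
    apply Finset.card_le_card_of_injOn (fun u => u \ x)
    · intro u hu
      rw [Finset.mem_coe, Finset.mem_filter, Finset.mem_powersetCard] at hu
      rw [Finset.mem_coe, Finset.mem_powersetCard]
      refine ⟨?_, ?_⟩
      · intro y hy
        rw [Finset.mem_compl]
        exact (Finset.mem_sdiff.mp hy).2
      · rw [Finset.card_sdiff_of_subset hu.2, hu.1.2, hxs.2]
    · intro u hu v hv huv
      rw [Finset.mem_coe, Finset.mem_filter] at hu hv
      have h2 : u \ x = v \ x := huv
      rw [← Finset.sdiff_union_of_subset hu.2, ← Finset.sdiff_union_of_subset hv.2, h2]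
  have hcount : n.choose k ≤ T.card * (n - t).choose (k - t) := by
    have h1 : Finset.powersetCard k (Finset.univ : Finset (Fin n)) ⊆
        T.biUnion (fun x => (Finset.powersetCard k (Finset.univ : Finset (Fin n))).filter
          (fun u => x ⊆ u)) := by
      intro u hu
      obtain ⟨s, hs, hsu⟩ := hcover u (Finset.mem_powersetCard.mp hu).2
      obtain ⟨x, hx1, hx2⟩ := Finset.exists_subset_card_eq hsu
      rw [Finset.mem_biUnion]
      refine ⟨x, ?_, ?_⟩
      · rw [Finset.mem_biUnion]
        exact ⟨s, hs, Finset.mem_powersetCard.mpr ⟨hx1.trans Finset.inter_subset_left, hx2⟩⟩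
      · rw [Finset.mem_filter]
        exact ⟨hu, hx1.trans Finset.inter_subset_right⟩
    have h2 := (Finset.card_le_card h1).trans (Finset.card_biUnion_le)
    rw [Finset.card_powersetCard, Finset.card_univ, Fintype.card_fin] at h2
    refine h2.trans ?_
    refine (Finset.sum_le_sum hsup).trans ?_
    rw [Finset.sum_const, smul_eq_mul]
  refine ⟨C', ?_, hcard, hC'2⟩
  have hpos : 0 < (n - t).choose (k - t) := Nat.choose_pos (by omega)
  have hid : n.choose k * k.choose t = n.choose t * (n - t).choose (k - t) :=
    Nat.choose_mul ht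
  have h1 : n.choose t * (n - t).choose (k - t) ≤
      (C'.card * (k.choose t) ^ 2) * (n - t).choose (k - t) := by
    calc n.choose t * (n - t).choose (k - t) = n.choose k * k.choose t := hid.symm
      _ ≤ (T.card * (n - t).choose (k - t)) * k.choose t := Nat.mul_le_mul_right _ hcount
      _ ≤ ((C'.card * k.choose t) * (n - t).choose (k - t)) * k.choose t :=
          Nat.mul_le_mul_right _ (Nat.mul_le_mul_right _ hTcard)
      _ = (C'.card * (k.choose t) ^ 2) * (n - t).choose (k - t) := by ring
  exact Nat.le_of_mul_le_mul_right h1 hpos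

end Pool.Agent.Hhelper49.CWC
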