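import Pool.Agent.Hhelper49.CWC.Flip

set_option autoImplicit false

namespace Pool.Agent.Hhelper49.CWC

theorem hyp_sum (w N τ : ℕ) : ∑ i ∈ Finset.range (τ + 1), hyp w N τ i = (w + N).choose τ := by
  rw [Nat.add_choose_eq]
  exact (Finset.Nat.sum_antidiagonal_eq_sum_range_succ
    (fun i j => w.choose i * N.choose j) τ).symm

theorem hyp_succ (w N τ i : ℕ) :
    (i + 1) * hyp (w + 1) N (τ + 1) (i + 1) = (w + 1) * hyp w N τ i := by
  unfold hyp
  have h1 := Nat.add_one_mul_choose_eq w i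
  have h2 : τ + 1 - (i + 1) = τ - i := by omega
  rw [h2]
  calc (i + 1) * ((w + 1).choose (i + 1) * N.choose (τ - i))
      = ((w + 1).choose (i + 1) * (i + 1)) * N.choose (τ - i) := by ring
    _ = ((w + 1) * w.choose i) * N.choose (τ - i) := by rw [h1]
    _ = _ := by ring

theorem hyp_m1 (w N τ : ℕ) : ∑ i ∈ Finset.range (τ + 1 + 1), i * hyp (w + 1) N (τ + 1) i =
    (w + 1) * (w + N).choose τ := by
  rw [Finset.sum_range_succ']
  simp only [zero_mul, add_zero]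
  rw [Finset.sum_congr rfl (fun i _ => hyp_succ w N τ i), ← Finset.mul_sum, hyp_sum]

/-- Real first moment. -/
theorem m1_real (w N τ : ℕ) :
    ((w : ℝ) + N) * ∑ i ∈ Finset.range (τ + 1), (i : ℝ) * hyp w N τ i =
      (w : ℝ) * τ * ((w + N).choose τ : ℝ) := by
  rcases Nat.eq_zero_or_pos τ with h0 | h0
  · subst h0
    simp
  obtain ⟨τ, rfl⟩ : ∃ σ, τ = σ + 1 := ⟨τ - 1, by omega⟩
  rcases Nat.eq_zero_or_pos w with hw | hw
  · subst hw
    have : ∑ i ∈ Finset.range (τ + 1 + 1), (i : ℝ) * hyp 0 N (τ + 1) i = 0 := by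
      apply Finset.sum_eq_zero
      intro i _
      rcases Nat.eq_zero_or_pos i with hi | hi
      · simp [hi]
      · unfold hyp
        rw [Nat.choose_eq_zero_of_lt hi]
        simp
    rw [this]
    simp
  obtain ⟨w, rfl⟩ : ∃ v, w = v + 1 := ⟨w - 1, by omega⟩
  have h1 := hyp_m1 w N τ
  have h2 : (∑ i ∈ Finset.range (τ + 1 + 1), (i : ℝ) * hyp (w + 1) N (τ + 1) i) =
      ((w : ℝ) + 1) * ((w + N).choose τ : ℝ) := by
    exact_mod_cast h1
  rw [h2]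
  have h3 := Nat.add_one_mul_choose_eq (w + N) τ
  have h4 : w + 1 + N = w + N + 1 := by omega
  rw [h4]
  have h5 : ((w : ℝ) + N + 1) * ((w + N).choose τ : ℝ) =
      ((w + N + 1).choose (τ + 1) : ℝ) * (τ + 1) := by
    exact_mod_cast h3
  push_cast
  calc ((w : ℝ) + 1 + N) * (((w : ℝ) + 1) * ((w + N).choose τ : ℝ))
      = ((w : ℝ) + 1) * (((w : ℝ) + N + 1) * ((w + N).choose τ : ℝ)) := by ring
    _ = ((w : ℝ) + 1) * (((w + N + 1).choose (τ + 1) : ℝ) * (τ + 1)) := by rw [h5]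
    _ = _ := by ring

/-- Real second factorial moment. -/
theorem m2_real (w N τ : ℕ) :
    ((w : ℝ) + N) * ((w : ℝ) + N - 1) *
      ∑ i ∈ Finset.range (τ + 1), (i : ℝ) * (i - 1) * hyp w N τ i =
      (w : ℝ) * (w - 1) * (τ * (τ - 1)) * ((w + N).choose τ : ℝ) := by
  rcases Nat.eq_zero_or_pos τ with h0 | h0
  · subst h0
    simp
  obtain ⟨τ, rfl⟩ : ∃ σ, τ = σ + 1 := ⟨τ - 1, by omega⟩
  rcases Nat.eq_zero_or_pos w with hw | hw
  · subst hw
    have : ∑ i ∈ Finset.range (τ + 1 + 1), (i : ℝ) * (i - 1) * hyp 0 N (τ + 1) i = 0 := by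
      apply Finset.sum_eq_zero
      intro i _
      rcases Nat.eq_zero_or_pos i with hi | hi
      · simp [hi]
      · unfold hyp
        rw [Nat.choose_eq_zero_of_lt hi]
        simp
    rw [this]
    simp
  obtain ⟨w, rfl⟩ : ∃ v, w = v + 1 := ⟨w - 1, by omega⟩
  have h1 : ∑ i ∈ Finset.range (τ + 1 + 1), (i : ℝ) * (i - 1) * hyp (w + 1) N (τ + 1) i =
      ((w : ℝ) + 1) * ∑ i ∈ Finset.range (τ + 1), (i : ℝ) * hyp w N τ i := by
    rw [Finset.sum_range_succ']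
    simp only [Nat.cast_zero, zero_mul, add_zero]
    rw [Finset.mul_sum]
    apply Finset.sum_congr rfl
    intro i _
    have h2 : ((i : ℝ) + 1) * (hyp (w + 1) N (τ + 1) (i + 1) : ℝ) =
        ((w : ℝ) + 1) * (hyp w N τ i : ℝ) := by
      exact_mod_cast hyp_succ w N τ i
    push_cast
    calc ((i : ℝ) + 1) * (i + 1 - 1) * (hyp (w + 1) N (τ + 1) (i + 1) : ℝ)
        = i * (((i : ℝ) + 1) * (hyp (w + 1) N (τ + 1) (i + 1) : ℝ)) := by ring
      _ = i * (((w : ℝ) + 1) * (hyp w N τ i : ℝ)) := by rw [h2]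
      _ = _ := by ring
  rw [h1]
  have h3 := m1_real w N τ
  have h4 := Nat.add_one_mul_choose_eq (w + N) τ
  have h5 : ((w : ℝ) + N + 1) * ((w + N).choose τ : ℝ) =
      ((w + N + 1).choose (τ + 1) : ℝ) * (τ + 1) := by
    exact_mod_cast h4
  have h6 : w + 1 + N = w + N + 1 := by omega
  rw [h6]
  push_cast
  calc ((w : ℝ) + 1 + N) * (w + 1 + N - 1) *
        (((w : ℝ) + 1) * ∑ i ∈ Finset.range (τ + 1), (i : ℝ) * hyp w N τ i)
      = ((w : ℝ) + 1 + N) * ((w : ℝ) + 1) *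
        (((w : ℝ) + N) * ∑ i ∈ Finset.range (τ + 1), (i : ℝ) * hyp w N τ i) := by ring
    _ = ((w : ℝ) + 1 + N) * ((w : ℝ) + 1) * ((w : ℝ) * τ * ((w + N).choose τ : ℝ)) := by rw [h3]
    _ = ((w : ℝ) + 1) * w * τ * (((w : ℝ) + N + 1) * ((w + N).choose τ : ℝ)) := by ring
    _ = ((w : ℝ) + 1) * w * τ * (((w + N + 1).choose (τ + 1) : ℝ) * (τ + 1)) := by rw [h5]
    _ = _ := by ring

/-- Variance bound. -/
theorem var_le (w N τ : ℕ) (hw : 1 ≤ w) (hτ : τ ≤ w + N) :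
    ∑ i ∈ Finset.range (τ + 1), ((i : ℝ) - τ * w / (w + N)) ^ 2 * hyp w N τ i ≤
      (w / 4 : ℝ) * ((w + N).choose τ : ℝ) := by
  set n : ℝ := (w : ℝ) + N with hn
  have hw' : (1 : ℝ) ≤ w := by exact_mod_cast hw
  have hN' : (0 : ℝ) ≤ N := Nat.cast_nonneg N
  have hn1 : 1 ≤ n := by rw [hn]; linarith
  have hn0 : 0 < n := by linarith
  set μ : ℝ := τ * w / n with hμ
  set M0 : ℝ := ((w + N).choose τ : ℝ) with hM0
  have hM0pos : 0 ≤ M0 := Nat.cast_nonneg _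
  set M1 : ℝ := ∑ i ∈ Finset.range (τ + 1), (i : ℝ) * hyp w N τ i with hM1
  set M2 : ℝ := ∑ i ∈ Finset.range (τ + 1), (i : ℝ) * (i - 1) * hyp w N τ i with hM2
  have e0 : ∑ i ∈ Finset.range (τ + 1), (hyp w N τ i : ℝ) = M0 := by
    rw [hM0, ← hyp_sum]
    push_cast
    rfl
  have e1 : n * M1 = w * τ * M0 := m1_real w N τ
  have e2 : n * (n - 1) * M2 = w * (w - 1) * (τ * (τ - 1)) * M0 := m2_real w N τ
  have hsum : ∑ i ∈ Finset.range (τ + 1), ((i : ℝ) - μ) ^ 2 * hyp w N τ i =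
      M2 + M1 - 2 * μ * M1 + μ ^ 2 * M0 := by
    rw [hM2, hM1, ← e0, Finset.mul_sum, Finset.mul_sum, ← Finset.sum_add_distrib,
      ← Finset.sum_sub_distrib, ← Finset.sum_add_distrib]
    apply Finset.sum_congr rfl
    intro i _
    ring
  have hM1' : M1 = μ * M0 := by
    have : n * M1 = n * (μ * M0) := by
      rw [e1, hμ]
      field_simp
    exact mul_left_cancel₀ hn0.ne' this
  show ∑ i ∈ Finset.range (τ + 1), ((i : ℝ) - μ) ^ 2 * hyp w N τ i ≤ (w / 4 : ℝ) * M0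
  rw [hsum]
  have hτn : (τ : ℝ) ≤ n := by
    rw [hn]
    exact_mod_cast hτ
  have hτ0 : (0 : ℝ) ≤ τ := Nat.cast_nonneg τ
  rcases eq_or_lt_of_le hn1 with hn1' | hn1'
  · -- n = 1
    have hw1 : (w : ℝ) = 1 := by
      have : (w : ℝ) + N = 1 := hn ▸ hn1'.symm
      linarith
    have hw1' : w = 1 := by exact_mod_cast hw1
    have hM2' : M2 = 0 := by
      rw [hM2]
      apply Finset.sum_eq_zero
      intro i _
      rw [hw1']
      rcases Nat.lt_or_ge 1 i with hi | hi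
      · unfold hyp
        rw [Nat.choose_eq_zero_of_lt hi]
        simp
      · interval_cases i <;> simp
    rw [hM2', hM1']
    have hμ' : μ = τ := by
      rw [hμ, ← hn1', hw1]
      ring
    have : (0 : ℝ) + μ * M0 - 2 * μ * (μ * M0) + μ ^ 2 * M0 = μ * (1 - μ) * M0 := by ring
    rw [this, hμ', hw1]
    have h3 : (τ : ℝ) * (1 - τ) ≤ 1 / 4 := by nlinarith [sq_nonneg ((τ : ℝ) - 1 / 2)]
    exact mul_le_mul_of_nonneg_right h3 hM0pos
  · have hn2 : 0 < n - 1 := by linarith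
    have hV : n ^ 2 * (n - 1) * (M2 + M1 - 2 * μ * M1 + μ ^ 2 * M0) =
        (w * (τ * (n - τ)) * (n - w)) * M0 := by
      have hμn : μ * n = τ * w := by
        rw [hμ]
        field_simp
      have : n ^ 2 * (n - 1) * (M2 + M1 - 2 * μ * M1 + μ ^ 2 * M0) =
          n * (n * (n - 1) * M2) + (n - 1) * n ^ 2 * (μ * M0 - μ ^ 2 * M0) := by
        rw [hM1']
        ring
      rw [this, e2]
      have h5 : (n - 1) * n ^ 2 * (μ * M0 - μ ^ 2 * M0) =
          (n - 1) * (n * (μ * n) - (μ * n) ^ 2) * M0 := by ring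
      rw [h5, hμn]
      ring
    have hb : (w * (τ * (n - τ)) * (n - w)) * M0 ≤ n ^ 2 * (n - 1) * ((w / 4 : ℝ) * M0) := by
      have h6 : (τ : ℝ) * (n - τ) ≤ n ^ 2 / 4 := by nlinarith [sq_nonneg ((τ : ℝ) - n / 2)]
      have h7 : n - (w : ℝ) ≤ n - 1 := by linarith
      have h8 : 0 ≤ n - (w : ℝ) := by
        rw [hn]
        linarith
      have h9 : (τ * (n - τ)) * (n - w) ≤ n ^ 2 / 4 * (n - 1) := by
        apply mul_le_mul h6 h7 h8
        positivity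
      have h10 : w * ((τ * (n - τ)) * (n - w)) ≤ w * (n ^ 2 / 4 * (n - 1)) :=
        mul_le_mul_of_nonneg_left h9 (by linarith)
      calc (w * (τ * (n - τ)) * (n - w)) * M0 = (w * ((τ * (n - τ)) * (n - w))) * M0 := by ring
        _ ≤ (w * (n ^ 2 / 4 * (n - 1))) * M0 := mul_le_mul_of_nonneg_right h10 hM0pos
        _ = _ := by ring
    have hpos : 0 < n ^ 2 * (n - 1) := by positivity
    rw [← hV] at hb
    exact le_of_mul_le_mul_left hb hpos

/-- Number of integers close to a point. -/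
theorem card_close (S : Finset ℕ) (μ r : ℝ) (hr : 0 ≤ r)
    (hS : ∀ i ∈ S, |(i : ℝ) - μ| ≤ r) : (S.card : ℝ) ≤ 2 * r + 1 := by
  have h1 : S.card ≤ (Finset.Icc ⌈μ - r⌉ ⌊μ + r⌋).card := by
    apply Finset.card_le_card_of_injOn (fun i : ℕ => (i : ℤ))
    · intro i hi
      have h2 := abs_le.mp (hS i (Finset.mem_coe.mp hi))
      rw [Finset.mem_coe, Finset.mem_Icc]
      constructor
      · rw [Int.ceil_le]
        push_cast
        linarith [h2.1]
      · rw [Int.le_floor]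
        push_cast
        linarith [h2.2]
    · intro i _ j _ hij
      have hij' : (i : ℤ) = (j : ℤ) := hij
      exact_mod_cast hij'
  rw [Int.card_Icc] at h1
  have h3 : ((⌊μ + r⌋ + 1 - ⌈μ - r⌉ : ℤ) : ℝ) ≤ 2 * r + 1 := by
    push_cast
    have := Int.floor_le (μ + r)
    have := Int.le_ceil (μ - r)
    linarith
  have h4 : ((⌊μ + r⌋ + 1 - ⌈μ - r⌉).toNat : ℝ) ≤ 2 * r + 1 := by
    rcases le_total 0 (⌊μ + r⌋ + 1 - ⌈μ - r⌉) with h | h
    · have h5 : (((⌊μ + r⌋ + 1 - ⌈μ - r⌉).toNat : ℤ) : ℝ) = ((⌊μ + r⌋ + 1 - ⌈μ - r⌉ : ℤ) : ℝ) := by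
        rw [Int.toNat_of_nonneg h]
      rw [← h5] at h3
      exact_mod_cast h3
    · rw [Int.toNat_of_nonpos h]
      simp only [Nat.cast_zero]
      linarith
  exact le_trans (by exact_mod_cast h1) h4

/-- The mode is at least a `1/√w` fraction. -/
theorem mode_large (w N τ : ℕ) (hw : 1 ≤ w) (hτ : τ ≤ w + N) :
    (3 / 4 : ℝ) * ((w + N).choose τ : ℝ) ≤
      (2 * √(w : ℝ) + 1) * (hyp w N τ ((w + 1) * (τ + 1) / (w + N + 2)) : ℝ) := by
  set m := (w + 1) * (τ + 1) / (w + N + 2) with hm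
  set μ : ℝ := τ * w / (w + N) with hμ
  have hvar := var_le w N τ hw hτ
  rw [← hμ] at hvar
  set M0 : ℝ := ((w + N).choose τ : ℝ) with hM0
  have e0 : ∑ i ∈ Finset.range (τ + 1), (hyp w N τ i : ℝ) = M0 := by
    rw [hM0, ← hyp_sum]
    push_cast
    rfl
  set S := (Finset.range (τ + 1)).filter (fun i : ℕ => |(i : ℝ) - μ| ≤ √(w : ℝ)) with hS
  have hwpos : (0 : ℝ) < w := by exact_mod_cast hw
  have hsplit : ∑ i ∈ S, (hyp w N τ i : ℝ) +
      ∑ i ∈ (Finset.range (τ + 1)).filter (fun i : ℕ => ¬ |(i : ℝ) - μ| ≤ √(w : ℝ)),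
        (hyp w N τ i : ℝ) = M0 := by
    rw [← e0]
    exact Finset.sum_filter_add_sum_filter_not _ _ _
  have htail : ∑ i ∈ (Finset.range (τ + 1)).filter (fun i : ℕ => ¬ |(i : ℝ) - μ| ≤ √(w : ℝ)),
        (hyp w N τ i : ℝ) ≤ M0 / 4 := by
    have h1 : (w : ℝ) * ∑ i ∈ (Finset.range (τ + 1)).filter
        (fun i : ℕ => ¬ |(i : ℝ) - μ| ≤ √(w : ℝ)), (hyp w N τ i : ℝ) ≤ (w / 4 : ℝ) * M0 := by
      rw [Finset.mul_sum]
      refine le_trans ?_ hvar
      refine le_trans (Finset.sum_le_sum (g := fun i : ℕ => ((i : ℝ) - μ) ^ 2 * hyp w N τ i) ?_) ?_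
      · intro i hi
        rw [Finset.mem_filter] at hi
        have h2 := hi.2
        push Not at h2
        have h3 : (w : ℝ) ≤ ((i : ℝ) - μ) ^ 2 := by
          rw [← sq_abs, ← Real.sq_sqrt hwpos.le]
          exact pow_le_pow_left₀ (Real.sqrt_nonneg _) h2.le 2
        exact mul_le_mul_of_nonneg_right h3 (Nat.cast_nonneg _)
      · apply Finset.sum_le_sum_of_subset_of_nonneg (Finset.filter_subset _ _)
        intro i _ _
        positivity
    have h4 : (w : ℝ) * ∑ i ∈ (Finset.range (τ + 1)).filter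
        (fun i : ℕ => ¬ |(i : ℝ) - μ| ≤ √(w : ℝ)), (hyp w N τ i : ℝ) ≤ w * (M0 / 4) := by
      calc _ ≤ (w / 4 : ℝ) * M0 := h1
        _ = w * (M0 / 4) := by ring
    exact le_of_mul_le_mul_left h4 hwpos
  have hmain : ∑ i ∈ S, (hyp w N τ i : ℝ) ≤ (2 * √(w : ℝ) + 1) * (hyp w N τ m : ℝ) := by
    have h1 : ∑ i ∈ S, (hyp w N τ i : ℝ) ≤ ∑ _i ∈ S, (hyp w N τ m : ℝ) := by
      apply Finset.sum_le_sum
      intro i hi
      rw [hS, Finset.mem_filter, Finset.mem_range] at hi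
      exact_mod_cast hyp_le_mode w N τ hτ i (by omega)
    rw [Finset.sum_const, nsmul_eq_mul] at h1
    refine h1.trans ?_
    apply mul_le_mul_of_nonneg_right _ (Nat.cast_nonneg _)
    apply card_close S μ _ (Real.sqrt_nonneg _)
    intro i hi
    rw [hS, Finset.mem_filter] at hi
    exact hi.2
  linarith

/-- Monotonicity up to a factor `4 √w₁`. -/
theorem almost_mono (n d w₁ w₂ : ℕ) (hw : 1 ≤ w₁) (h12 : w₁ ≤ w₂) (hn : 2 * w₂ ≤ n)
    (C : Finset (Finset (Fin n))) (hC : ∀ s ∈ C, s.card = w₁)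
    (hD : ∀ s ∈ C, ∀ t ∈ C, s ≠ t → d ≤ (symmDiff s t).card) :
    ∃ C' : Finset (Finset (Fin n)), (C.card : ℝ) ≤ 4 * √(w₁ : ℝ) * (C'.card : ℝ) ∧
      (∀ s ∈ C', s.card = w₂) ∧
      (∀ s ∈ C', ∀ t ∈ C', s ≠ t → d ≤ (symmDiff s t).card) := by
  obtain ⟨N, hN⟩ : ∃ N, n = w₁ + N := ⟨n - w₁, by omega⟩
  obtain ⟨τ, hτ, hτw⟩ := exists_tau w₁ N w₂ h12 (by omega)
  set i := (w₁ + 1) * (τ + 1) / (w₁ + N + 2) with hi
  have hiτ : i ≤ τ := by omega
  obtain ⟨T, hT, hTc⟩ := exists_flip C w₁ τ i hC hiτ (by rw [Fintype.card_fin]; omega)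
  rw [Fintype.card_fin] at hTc
  obtain ⟨C', h1, h2, h3⟩ := flip_code C w₁ τ i d w₂ hC hD T hT hτw
  refine ⟨C', ?_, h2, h3⟩
  rw [← h1] at hTc
  have hNn : n - w₁ = N := by omega
  rw [hNn] at hTc
  have hml := mode_large w₁ N τ hw hτ
  rw [← hi] at hml
  set H : ℝ := (hyp w₁ N τ i : ℝ) with hH
  have hTc' : (C.card : ℝ) * H ≤ (C'.card : ℝ) * ((w₁ + N).choose τ : ℝ) := by
    rw [hH, ← hN]
    exact_mod_cast hTc
  have hchoose : (0 : ℝ) < ((w₁ + N).choose τ : ℝ) := by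
    exact_mod_cast Nat.choose_pos hτ
  have hsq : (1 : ℝ) ≤ √(w₁ : ℝ) := by
    rw [Real.one_le_sqrt]
    exact_mod_cast hw
  have hHpos : 0 < H := by
    by_contra hcon
    push Not at hcon
    have : (2 * √(w₁ : ℝ) + 1) * H ≤ 0 := mul_nonpos_of_nonneg_of_nonpos (by positivity) hcon
    linarith
  have h5 : ((w₁ + N).choose τ : ℝ) ≤ 4 * √(w₁ : ℝ) * H := by
    have h6 : (2 * √(w₁ : ℝ) + 1) * H ≤ (3 * √(w₁ : ℝ)) * H :=
      mul_le_mul_of_nonneg_right (by linarith) hHpos.le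
    linarith
  have h7 : (C.card : ℝ) * H ≤ (4 * √(w₁ : ℝ) * (C'.card : ℝ)) * H := by
    calc (C.card : ℝ) * H ≤ (C'.card : ℝ) * ((w₁ + N).choose τ : ℝ) := hTc'
      _ ≤ (C'.card : ℝ) * (4 * √(w₁ : ℝ) * H) :=
        mul_le_mul_of_nonneg_left h5 (Nat.cast_nonneg _)
      _ = _ := by ring
  exact le_of_mul_le_mul_right h7 hHpos

end Pool.Agent.Hhelper49.CWC
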