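import Pool.Agent.Hhelper49.CWC.Main

set_option autoImplicit false

/-! Flipping a set of coordinates: monotonicity up to a factor `4 √w₁`. -/

namespace Pool.Agent.Hhelper49.CWC

section counting

variable {V : Type*} [DecidableEq V] [Fintype V]

/-- Number of `τ`-sets meeting `s` in exactly `i` points. -/
theorem card_meet (s : Finset V) (τ i : ℕ) (hi : i ≤ τ) :
    s.card.choose i * (Fintype.card V - s.card).choose (τ - i) ≤
      ((Finset.powersetCard τ (Finset.univ : Finset V)).filter
        (fun T => (s ∩ T).card = i)).card := by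
  have h1 : (Finset.powersetCard i s ×ˢ Finset.powersetCard (τ - i) sᶜ).card =
      s.card.choose i * (Fintype.card V - s.card).choose (τ - i) := by
    rw [Finset.card_product, Finset.card_powersetCard, Finset.card_powersetCard,
      Finset.card_compl]
  rw [← h1]
  apply Finset.card_le_card_of_injOn (fun q => q.1 ∪ q.2)
  · intro q hq
    rw [Finset.mem_coe, Finset.mem_product, Finset.mem_powersetCard,
      Finset.mem_powersetCard] at hq
    obtain ⟨⟨h2, h3⟩, h4, h5⟩ := hq
    have hdisj : Disjoint q.1 q.2 := by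
      rw [Finset.disjoint_left]
      intro x hx hx'
      exact (Finset.mem_compl.mp (h4 hx')) (h2 hx)
    rw [Finset.mem_coe, Finset.mem_filter, Finset.mem_powersetCard]
    refine ⟨⟨Finset.subset_univ _, ?_⟩, ?_⟩
    · rw [Finset.card_union_of_disjoint hdisj, h3, h5]
      omega
    · have : s ∩ (q.1 ∪ q.2) = q.1 := by
        ext x
        simp only [Finset.mem_inter, Finset.mem_union]
        constructor
        · rintro ⟨hxs, hx | hx⟩
          · exact hx
          · exact absurd hxs (Finset.mem_compl.mp (h4 hx))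
        · intro hx
          exact ⟨h2 hx, Or.inl hx⟩
      rw [this, h3]
  · intro q hq r hr hqr
    rw [Finset.mem_coe, Finset.mem_product, Finset.mem_powersetCard,
      Finset.mem_powersetCard] at hq hr
    obtain ⟨⟨h2, -⟩, h4, -⟩ := hq
    obtain ⟨⟨h6, -⟩, h8, -⟩ := hr
    have hqr' : q.1 ∪ q.2 = r.1 ∪ r.2 := hqr
    have e1 : ∀ (A B : Finset V), A ⊆ s → B ⊆ sᶜ → (A ∪ B) ∩ s = A := by
      intro A B hA hB
      ext x
      simp only [Finset.mem_inter, Finset.mem_union]
      constructor
      · rintro ⟨hx | hx, hxs⟩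
        · exact hx
        · exact absurd hxs (Finset.mem_compl.mp (hB hx))
      · intro hx
        exact ⟨Or.inl hx, hA hx⟩
    have e2 : ∀ (A B : Finset V), A ⊆ s → B ⊆ sᶜ → (A ∪ B) ∩ sᶜ = B := by
      intro A B hA hB
      ext x
      simp only [Finset.mem_inter, Finset.mem_union, Finset.mem_compl]
      constructor
      · rintro ⟨hx | hx, hxs⟩
        · exact absurd (hA hx) hxs
        · exact hx
      · intro hx
        exact ⟨Or.inr hx, Finset.mem_compl.mp (hB hx)⟩
    apply Prod.ext
    · rw [← e1 q.1 q.2 h2 h4, ← e1 r.1 r.2 h6 h8, hqr']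
    · rw [← e2 q.1 q.2 h2 h4, ← e2 r.1 r.2 h6 h8, hqr']

/-- Averaging over all flips of size `τ`. -/
theorem exists_flip (C : Finset (Finset V)) (w τ i : ℕ) (hC : ∀ s ∈ C, s.card = w)
    (hi : i ≤ τ) (hτ : τ ≤ Fintype.card V) :
    ∃ T : Finset V, T.card = τ ∧
      C.card * (w.choose i * (Fintype.card V - w).choose (τ - i)) ≤
        (C.filter (fun s => (s ∩ T).card = i)).card * (Fintype.card V).choose τ := by
  by_contra hcon
  push Not at hcon
  set S := Finset.powersetCard τ (Finset.univ : Finset V) with hS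
  have hScard : S.card = (Fintype.card V).choose τ := by
    rw [hS, Finset.card_powersetCard, Finset.card_univ]
  have hSpos : 0 < S.card := by
    rw [hScard]
    exact Nat.choose_pos hτ
  have hSne : S.Nonempty := Finset.card_pos.mp hSpos
  have h1 : ∑ T ∈ S, (C.filter (fun s => (s ∩ T).card = i)).card =
      ∑ s ∈ C, (S.filter (fun T => (s ∩ T).card = i)).card := by
    simp_rw [Finset.card_filter]
    rw [Finset.sum_comm]
  have h2 : C.card * (w.choose i * (Fintype.card V - w).choose (τ - i)) ≤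
      ∑ s ∈ C, (S.filter (fun T => (s ∩ T).card = i)).card := by
    rw [← smul_eq_mul, ← Finset.sum_const]
    apply Finset.sum_le_sum
    intro s hs
    have := card_meet s τ i hi
    rwa [hC s hs] at this
  have h3 : ∑ T ∈ S, (C.filter (fun s => (s ∩ T).card = i)).card * (Fintype.card V).choose τ <
      ∑ _T ∈ S, C.card * (w.choose i * (Fintype.card V - w).choose (τ - i)) :=
    Finset.sum_lt_sum_of_nonempty hSne
      (fun T hT => hcon T (Finset.mem_powersetCard.mp hT).2)
  rw [← Finset.sum_mul, h1, Finset.sum_const, smul_eq_mul, hScard, mul_comm] at h3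
  have h4 := Nat.mul_le_mul_left ((Fintype.card V).choose τ) h2
  omega

/-- A flip preserves distances. -/
theorem flip_code (C : Finset (Finset V)) (w τ i d w₂ : ℕ) (hC : ∀ s ∈ C, s.card = w)
    (hD : ∀ s ∈ C, ∀ t ∈ C, s ≠ t → d ≤ (symmDiff s t).card)
    (T : Finset V) (hT : T.card = τ) (hw2 : w₂ + 2 * i = w + τ) :
    ∃ C' : Finset (Finset V), C'.card = (C.filter (fun s => (s ∩ T).card = i)).card ∧
      (∀ s ∈ C', s.card = w₂) ∧
      (∀ s ∈ C', ∀ t ∈ C', s ≠ t → d ≤ (symmDiff s t).card) := by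
  refine ⟨(C.filter (fun s => (s ∩ T).card = i)).image (fun s => symmDiff s T), ?_, ?_, ?_⟩
  · apply Finset.card_image_of_injOn
    intro s _ t _ hst
    exact symmDiff_left_injective T hst
  · intro s hs
    obtain ⟨a, ha, rfl⟩ := Finset.mem_image.mp hs
    rw [Finset.mem_filter] at ha
    have h1 := card_symmDiff_add a T
    rw [hC a ha.1, hT, ha.2] at h1
    omega
  · intro s hs t ht hne
    obtain ⟨a, ha, rfl⟩ := Finset.mem_image.mp hs
    obtain ⟨b, hb, rfl⟩ := Finset.mem_image.mp ht
    rw [Finset.mem_filter] at ha hb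
    have hab : a ≠ b := by
      rintro rfl
      exact hne rfl
    have h1 : symmDiff (symmDiff a T) (symmDiff b T) = symmDiff a b := by
      rw [symmDiff_symmDiff_symmDiff_comm, symmDiff_self, symmDiff_bot]
    rw [h1]
    exact hD a ha.1 b hb.1 hab

end counting

/-! ### The hypergeometric weights -/

/-- `h i = C(w,i) C(N,τ-i)`. -/
def hyp (w N τ i : ℕ) : ℕ := w.choose i * N.choose (τ - i)

theorem hyp_ratio (w N τ i : ℕ) (hi : i < τ) :
    hyp w N τ (i + 1) * ((i + 1) * (N - (τ - i - 1))) = hyp w N τ i * ((w - i) * (τ - i)) := by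
  unfold hyp
  have e1 : w.choose (i + 1) * (i + 1) = w.choose i * (w - i) := Nat.choose_succ_right_eq w i
  have e2 : N.choose (τ - i) * (τ - i) = N.choose (τ - i - 1) * (N - (τ - i - 1)) := by
    have h := Nat.choose_succ_right_eq N (τ - i - 1)
    have h2 : τ - i - 1 + 1 = τ - i := by omega
    rwa [h2] at h
  have e3 : τ - (i + 1) = τ - i - 1 := by omega
  rw [e3]
  calc w.choose (i + 1) * N.choose (τ - i - 1) * ((i + 1) * (N - (τ - i - 1)))
      = (w.choose (i + 1) * (i + 1)) * (N.choose (τ - i - 1) * (N - (τ - i - 1))) := by ring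
    _ = (w.choose i * (w - i)) * (N.choose (τ - i) * (τ - i)) := by rw [e1, e2]
    _ = _ := by ring

theorem hyp_up (w N τ i : ℕ) (hi : i < τ) (hiw : i < w)
    (h : (i + 1) * (w + N + 2) ≤ (w + 1) * (τ + 1)) :
    hyp w N τ i ≤ hyp w N τ (i + 1) := by
  rcases Nat.lt_or_ge N (τ - i) with hN | hN
  · unfold hyp
    rw [Nat.choose_eq_zero_of_lt hN, mul_zero]
    exact Nat.zero_le _
  · have hr := hyp_ratio w N τ i hi
    obtain ⟨a, ha⟩ : ∃ a, w = i + a := ⟨w - i, by omega⟩
    obtain ⟨b, hb⟩ : ∃ b, τ = i + b := ⟨τ - i, by omega⟩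
    obtain ⟨c, hc⟩ : ∃ c, N = b + c := ⟨N - b, by omega⟩
    have e1 : w - i = a := by omega
    have e2 : τ - i = b := by omega
    have e3 : N - (τ - i - 1) = c + 1 := by omega
    rw [e1, e2] at hr
    rw [e2] at e3
    rw [e3] at hr
    have hkey : (i + 1) * (c + 1) ≤ a * b := by
      rw [ha, hb, hc] at h
      nlinarith
    have h1 : hyp w N τ i * ((i + 1) * (c + 1)) ≤ hyp w N τ (i + 1) * ((i + 1) * (c + 1)) := by
      rw [hr]
      exact Nat.mul_le_mul_left _ hkey
    exact Nat.le_of_mul_le_mul_right h1 (by positivity)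

theorem hyp_down (w N τ i : ℕ) (hi : i < τ)
    (h : (w + 1) * (τ + 1) ≤ (i + 1) * (w + N + 2)) :
    hyp w N τ (i + 1) ≤ hyp w N τ i := by
  rcases Nat.lt_or_ge i w with hiw | hiw
  · rcases Nat.lt_or_ge N (τ - i - 1) with hN | hN
    · unfold hyp
      have e3 : τ - (i + 1) = τ - i - 1 := by omega
      rw [e3, Nat.choose_eq_zero_of_lt hN, mul_zero]
      exact Nat.zero_le _
    · have hr := hyp_ratio w N τ i hi
      obtain ⟨a, ha⟩ : ∃ a, w = i + a := ⟨w - i, by omega⟩
      obtain ⟨b, hb⟩ : ∃ b, τ = i + b + 1 := ⟨τ - i - 1, by omega⟩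
      obtain ⟨c, hc⟩ : ∃ c, N = b + c := ⟨N - b, by omega⟩
      have e1 : w - i = a := by omega
      have e2 : τ - i = b + 1 := by omega
      have e3 : N - (τ - i - 1) = c := by omega
      rw [e3, e1, e2] at hr
      have hkey : a * (b + 1) ≤ (i + 1) * c := by
        rw [ha, hb, hc] at h
        nlinarith
      have hcpos : 0 < c := by
        rcases Nat.eq_zero_or_pos c with h0 | h0
        · exfalso
          rw [h0, mul_zero] at hkey
          have : 0 < a * (b + 1) := Nat.mul_pos (by omega) (by omega)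
          omega
        · exact h0
      have h1 : hyp w N τ (i + 1) * ((i + 1) * c) ≤ hyp w N τ i * ((i + 1) * c) := by
        rw [hr]
        exact Nat.mul_le_mul_left _ hkey
      exact Nat.le_of_mul_le_mul_right h1 (Nat.mul_pos (Nat.succ_pos _) hcpos)
  · unfold hyp
    rw [Nat.choose_eq_zero_of_lt (by omega : w < i + 1), zero_mul]
    exact Nat.zero_le _

/-- The mode. -/
theorem hyp_le_mode (w N τ : ℕ) (hτ : τ ≤ w + N) (i : ℕ) (hi : i ≤ τ) :
    hyp w N τ i ≤ hyp w N τ ((w + 1) * (τ + 1) / (w + N + 2)) := by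
  set m := (w + 1) * (τ + 1) / (w + N + 2) with hm
  have hpos : 0 < w + N + 2 := by omega
  have hmw : m ≤ w := by
    rw [hm]
    apply Nat.lt_succ_iff.mp
    rw [Nat.div_lt_iff_lt_mul hpos]
    exact Nat.mul_lt_mul_of_pos_left (by omega) (Nat.succ_pos _)
  have hmτ : m ≤ τ := by
    rw [hm]
    apply Nat.lt_succ_iff.mp
    rw [Nat.div_lt_iff_lt_mul hpos]
    rw [mul_comm]
    exact Nat.mul_lt_mul_of_pos_left (by omega) (Nat.succ_pos _)
  rcases Nat.le_total i m with him | him
  · -- going up
    have key : ∀ k, i + k ≤ m → hyp w N τ i ≤ hyp w N τ (i + k) := by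
      intro k
      induction k with
      | zero => intro _; exact le_rfl
      | succ k ih =>
        intro hk
        refine (ih (by omega)).trans ?_
        apply hyp_up w N τ (i + k) (by omega) (by omega)
        have h1 : m * (w + N + 2) ≤ (w + 1) * (τ + 1) := Nat.div_mul_le_self _ _
        exact (Nat.mul_le_mul_right _ (by omega)).trans h1
    have := key (m - i) (by omega)
    have e : i + (m - i) = m := by omega
    rwa [e] at this
  · have key : ∀ k, m + k ≤ τ → hyp w N τ (m + k) ≤ hyp w N τ m := by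
      intro k
      induction k with
      | zero => intro _; exact le_rfl
      | succ k ih =>
        intro hk
        refine le_trans ?_ (ih (by omega))
        apply hyp_down w N τ (m + k) (by omega)
        have h1 : (w + 1) * (τ + 1) < (m + 1) * (w + N + 2) := by
          have := Nat.lt_div_mul_add (a := (w + 1) * (τ + 1)) hpos
          rw [← hm] at this
          linarith
        exact h1.le.trans (Nat.mul_le_mul_right _ (by omega))
    have := key (i - m) (by omega)
    have e : m + (i - m) = i := by omega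
    rwa [e] at this

/-- Discrete intermediate value: some `τ` whose mode gives exactly the weight `w₂`. -/
theorem exists_tau (w N w₂ : ℕ) (h1 : w ≤ w₂) (h2 : w₂ ≤ N) :
    ∃ τ, τ ≤ w + N ∧ w₂ + 2 * ((w + 1) * (τ + 1) / (w + N + 2)) = w + τ := by
  set m : ℕ → ℕ := fun τ => (w + 1) * (τ + 1) / (w + N + 2) with hm
  have hpos : 0 < w + N + 2 := by omega
  have hex : ∃ τ, w₂ + 2 * m τ ≤ w + τ := by
    refine ⟨w + N, ?_⟩
    have : m (w + N) ≤ w := by
      apply Nat.lt_succ_iff.mp
      rw [hm]
      show (w + 1) * (w + N + 1) / (w + N + 2) < w + 1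
      rw [Nat.div_lt_iff_lt_mul hpos]
      exact Nat.mul_lt_mul_of_pos_left (by omega) (Nat.succ_pos _)
    omega
  classical
  obtain ⟨τ, hτ, hmin⟩ : ∃ τ, w₂ + 2 * m τ ≤ w + τ ∧ ∀ σ < τ, ¬ (w₂ + 2 * m σ ≤ w + σ) :=
    ⟨Nat.find hex, Nat.find_spec hex, fun σ hσ => Nat.find_min hex hσ⟩
  refine ⟨τ, ?_, ?_⟩
  · by_contra hcon
    push Not at hcon
    apply hmin (w + N) hcon
    have : m (w + N) ≤ w := by
      apply Nat.lt_succ_iff.mp
      rw [hm]
      show (w + 1) * (w + N + 1) / (w + N + 2) < w + 1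
      rw [Nat.div_lt_iff_lt_mul hpos]
      exact Nat.mul_lt_mul_of_pos_left (by omega) (Nat.succ_pos _)
    omega
  · show w₂ + 2 * m τ = w + τ
    rcases Nat.eq_zero_or_pos τ with h0 | h0
    · subst h0
      omega
    · obtain ⟨σ, rfl⟩ : ∃ σ, τ = σ + 1 := ⟨τ - 1, by omega⟩
      have h3 := hmin σ (Nat.lt_succ_self σ)
      push Not at h3
      have h4 : m σ ≤ m (σ + 1) := by
        rw [hm]
        exact Nat.div_le_div_right (Nat.mul_le_mul_left _ (by omega))
      omega

end Pool.Agent.Hhelper49.CWC
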