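import Pool.Agent.Hhelper49.CWC.Step

set_option autoImplicit false

namespace Pool.Agent.Hhelper49.CWC

theorem double_count {V : Type*} [DecidableEq V] [Fintype V] (C : Finset (Finset V)) (w : ℕ)
    (hC : ∀ s ∈ C, s.card = w) :
    ∑ x : V, (C.filter (fun s => x ∈ s)).card = w * C.card := by
  have h1 : ∀ x : V, (C.filter (fun s => x ∈ s)).card = ∑ s ∈ C, if x ∈ s then 1 else 0 := by
    intro x
    rw [Finset.card_filter]
  simp_rw [h1]
  rw [Finset.sum_comm]
  have h2 : ∀ s ∈ C, (∑ x : V, if x ∈ s then 1 else 0) = w := by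
    intro s hs
    rw [← hC s hs, ← Finset.card_filter]
    congr 1
    ext x
    simp
  rw [Finset.sum_congr rfl h2, Finset.sum_const, smul_eq_mul, mul_comm]

set_option maxRecDepth 10000 in
theorem has_ten : Has (Fin 10) 5 5 2 := by
  refine ⟨{{0, 1, 2, 3, 4}, {0, 1, 5, 6, 7}, {0, 2, 5, 8, 9}, {1, 3, 6, 8, 9}, {2, 4, 6, 7, 8}},
    by decide, by decide, by decide⟩

/-- One step up in the weight for sets pairwise meeting in at most one point. -/
theorem step_one (n w : ℕ) (hw : 3 ≤ w) (hn : 2 * w + 2 ≤ n) (C : Finset (Finset (Fin n)))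
    (hC : ∀ s ∈ C, s.card = w)
    (hI : ∀ s ∈ C, ∀ t ∈ C, s ≠ t → (s ∩ t).card ≤ 1) : Has (Fin n) C.card (w + 1) 2 := by
  by_cases h3 : ∃ p : Fin n, 2 < (C.filter (fun s => p ∈ s)).card
  · obtain ⟨p, hp⟩ := h3
    rw [Finset.two_lt_card] at hp
    obtain ⟨a, ha, b, hb, c, hc, hab, hac, hbc⟩ := hp
    rw [Finset.mem_filter] at ha hb hc
    exact case_three C w hw hC hI p a b c ha.1 hb.1 hc.1 ha.2 hb.2 hc.2 hab hac hbc
  push Not at h3
  by_cases h0 : ∃ p : Fin n, (C.filter (fun s => p ∈ s)).card = 0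
  · obtain ⟨p, hp⟩ := h0
    rw [Finset.card_eq_zero, Finset.filter_eq_empty_iff] at hp
    refine ext_lemma C w (by omega) hC hI p (fun _ => ∅) ?_ ?_ ?_
    · intro s hs hps
      exact absurd hps (hp hs)
    · intro s hs hps
      exact absurd hps (hp hs)
    · intro s hs hps
      exact absurd hps (hp hs)
  push Not at h0
  by_cases h1 : ∃ p : Fin n, (C.filter (fun s => p ∈ s)).card = 1
  · obtain ⟨p, hp⟩ := h1
    obtain ⟨a, ha⟩ := Finset.card_eq_one.mp hp
    have hth : ∀ s, (s ∈ C ∧ p ∈ s) ↔ s = a := by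
      intro s
      have := congrArg (fun F => s ∈ F) ha
      simpa [Finset.mem_filter] using this
    have haC := (hth a).mpr rfl
    exact case_one C w hw hC hI (by rw [Fintype.card_fin]; exact hn) h3 p a haC.1 haC.2
      (fun s hs hps => (hth s).mp ⟨hs, hps⟩)
  push Not at h1
  have h2 : ∀ p : Fin n, (C.filter (fun s => p ∈ s)).card = 2 := by
    intro p
    have := h3 p
    have := h0 p
    have := h1 p
    omega
  by_cases hn3 : 2 * w + 3 ≤ n
  · exact case_two C w hw hC hI (by rw [Fintype.card_fin]; exact hn3) h2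
  · -- the remaining case
    have hn2 : n = 2 * w + 2 := by omega
    have hdc := double_count C w hC
    simp_rw [h2] at hdc
    rw [Finset.sum_const, Finset.card_univ, Fintype.card_fin, smul_eq_mul] at hdc
    have hw4 : w * C.card = 4 * w + 4 := by
      rw [← hdc, hn2]
      ring
    have hdvd : w ∣ 4 := by
      have h1 : w ∣ 4 * w + 4 := ⟨C.card, hw4.symm⟩
      exact (Nat.dvd_add_right (Dvd.intro_left 4 rfl)).mp h1
    have hwle : w ≤ 4 := Nat.le_of_dvd (by norm_num) hdvd
    have hw' : w = 4 := by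
      have : w = 3 ∨ w = 4 := by omega
      rcases this with rfl | rfl
      · norm_num at hdvd
      · rfl
    subst hw'
    subst hn2
    have hc : C.card = 5 := by omega
    rw [hc]
    exact has_ten

/-- One step up in the weight for pairwise disjoint sets. -/
theorem step_zero {V : Type*} [DecidableEq V] [Fintype V] (w : ℕ) (hw : 1 ≤ w)
    (hn : 2 * w + 2 ≤ Fintype.card V) (C : Finset (Finset V))
    (hC : ∀ s ∈ C, s.card = w)
    (hI : ∀ s ∈ C, ∀ t ∈ C, s ≠ t → (s ∩ t).card ≤ 0) : Has V C.card (w + 1) 1 := by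
  rcases C.eq_empty_or_nonempty with rfl | ⟨a, ha⟩
  · exact ⟨∅, rfl, by simp, by simp⟩
  have hshare : ∀ s ∈ C, ∀ t ∈ C, ∀ x, x ∈ s → x ∈ t → s = t := by
    intro s hs t ht x hxs hxt
    by_contra hne
    have h1 := hI s hs t ht hne
    have h2 : 0 < (s ∩ t).card := Finset.card_pos.mpr ⟨x, Finset.mem_inter.mpr ⟨hxs, hxt⟩⟩
    omega
  obtain ⟨p, hpa⟩ : a.Nonempty := Finset.card_pos.mp (by rw [hC a ha]; omega)
  have hcc : aᶜ.card = Fintype.card V - w := by rw [Finset.card_compl, hC a ha]
  obtain ⟨x, hx⟩ : aᶜ.Nonempty := Finset.card_pos.mp (by omega)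
  obtain ⟨y, hy, hyx, hno⟩ : ∃ y ∈ aᶜ, y ≠ x ∧ ∀ s ∈ C, x ∈ s → y ∉ s := by
    by_contra hcon
    push Not at hcon
    obtain ⟨y0, hy0, hy0x⟩ := Finset.exists_mem_ne (s := aᶜ) (by omega) x
    obtain ⟨s, hs, hxs, hys⟩ := hcon y0 hy0 hy0x
    have hsub : aᶜ ⊆ s := by
      intro u hu
      by_cases hux : u = x
      · rw [hux]; exact hxs
      · obtain ⟨t, ht, hxt, hut⟩ := hcon u hu hux
        rw [hshare s hs t ht x hxs hxt]
        exact hut
    have := Finset.card_le_card hsub
    rw [hC s hs] at this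
    omega
  rw [Finset.mem_compl] at hx hy
  have hpxy : p ∉ ({x, y} : Finset V) := by
    simp only [Finset.mem_insert, Finset.mem_singleton]
    rintro (rfl | rfl)
    · exact hx hpa
    · exact hy hpa
  have hpt : ∀ t ∈ C, t ≠ a → p ∉ t := fun t ht hta hpt => hta (hshare t ht a ha p hpt hpa)
  have mixed : ∀ t ∈ C, t ≠ a → ((a.erase p ∪ {x, y}) ∩ insert p t).card ≤ 1 := by
    intro t ht hta
    rw [Finset.card_le_one]
    have key : ∀ u, u ∈ (a.erase p ∪ {x, y}) ∩ insert p t → (u = x ∨ u = y) ∧ u ∈ t := by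
      intro u hu
      simp only [Finset.mem_inter, Finset.mem_union, Finset.mem_erase, Finset.mem_insert,
        Finset.mem_singleton] at hu
      obtain ⟨h1, h2⟩ := hu
      have hup : u ≠ p := by
        rintro rfl
        rcases h1 with h | h
        · exact h.1 rfl
        · exact hpxy (by simpa using h)
      have hut : u ∈ t := by
        rcases h2 with h | h
        · exact absurd h hup
        · exact h
      rcases h1 with h | h
      · exact absurd (hshare t ht a ha u hut h.2) hta
      · exact ⟨h, hut⟩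
    intro u hu v hv
    obtain ⟨h1, h2⟩ := key u hu
    obtain ⟨h3, h4⟩ := key v hv
    rcases h1 with rfl | rfl
    · rcases h3 with rfl | rfl
      · rfl
      · exact absurd h4 (hno t ht h2)
    · rcases h3 with rfl | rfl
      · exact absurd h2 (hno t ht h4)
      · rfl
  apply has_of_map C (fun s => if s = a then a.erase p ∪ {x, y} else insert p s) (w + 1) 1 (by omega)
  · intro s hs
    by_cases hsa : s = a
    · simp only [hsa, if_true]
      rw [Finset.card_union_of_disjoint, Finset.card_erase_of_mem hpa, hC a ha,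
        Finset.card_pair hyx.symm]
      · omega
      · rw [Finset.disjoint_left]
        intro u hu hu2
        have hua := Finset.mem_of_mem_erase hu
        simp only [Finset.mem_insert, Finset.mem_singleton] at hu2
        rcases hu2 with rfl | rfl
        · exact hx hua
        · exact hy hua
    · simp only [hsa, if_false]
      rw [Finset.card_insert_of_notMem (hpt s hs hsa), hC s hs]
  · intro s hs t ht hne
    by_cases hsa : s = a
    · have hta : t ≠ a := fun h => hne (hsa.trans h.symm)
      simp only [hsa, hta, if_true, if_false]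
      exact mixed t ht hta
    · by_cases hta : t = a
      · simp only [hsa, hta, if_true, if_false]
        rw [Finset.inter_comm]
        exact mixed s hs hsa
      · simp only [hsa, hta, if_false]
        rw [← Finset.insert_inter_distrib]
        calc (insert p (s ∩ t)).card ≤ (s ∩ t).card + 1 := Finset.card_insert_le _ _
          _ ≤ 0 + 1 := Nat.add_le_add_right (hI s hs t ht hne) 1

theorem card_symmDiff_add {V : Type*} [DecidableEq V] (s t : Finset V) :
    (symmDiff s t).card + 2 * (s ∩ t).card = s.card + t.card := by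
  have h1 : (symmDiff s t).card = (s \ t).card + (t \ s).card := by
    rw [symmDiff_def, Finset.sup_eq_union, Finset.card_union_of_disjoint]
    exact disjoint_sdiff_sdiff
  have h2 := Finset.card_sdiff_add_card_inter s t
  have h3 := Finset.card_sdiff_add_card_inter t s
  rw [Finset.inter_comm t s] at h3
  omega

/-- The one-step statement for words of length `n`. -/
theorem step (n d w : ℕ) (hd : 1 ≤ d) (hn : 2 * w + 2 ≤ n) (hwd : 2 * w ≤ d + 3)
    (C : Finset (Finset (Fin n))) (hC : ∀ s ∈ C, s.card = w)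
    (hD : ∀ s ∈ C, ∀ t ∈ C, s ≠ t → d ≤ (symmDiff s t).card) :
    ∃ C' : Finset (Finset (Fin n)), C'.card = C.card ∧ (∀ s ∈ C', s.card = w + 1) ∧
      (∀ s ∈ C', ∀ t ∈ C', s ≠ t → d ≤ (symmDiff s t).card) := by
  have conv : ∀ l : ℕ, Has (Fin n) C.card (w + 1) l → d + 2 * l ≤ 2 * w + 2 →
      ∃ C' : Finset (Finset (Fin n)), C'.card = C.card ∧ (∀ s ∈ C', s.card = w + 1) ∧
      (∀ s ∈ C', ∀ t ∈ C', s ≠ t → d ≤ (symmDiff s t).card) := by
    rintro l ⟨C', h1, h2, h3⟩ hl
    refine ⟨C', h1, h2, ?_⟩
    intro s hs t ht hne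
    have ha := card_symmDiff_add s t
    have hb := h3 s hs t ht hne
    rw [h2 s hs, h2 t ht] at ha
    omega
  by_cases hC1 : C.card ≤ 1
  · have huniv : w + 1 ≤ (Finset.univ : Finset (Fin n)).card := by
      rw [Finset.card_univ, Fintype.card_fin]
      omega
    obtain ⟨u, -, hu⟩ := Finset.exists_subset_card_eq huniv
    rcases Nat.le_one_iff_eq_zero_or_eq_one.mp hC1 with h | h
    · exact ⟨∅, by rw [h]; rfl, by simp, by simp⟩
    · refine ⟨{u}, by rw [h]; rfl, ?_, ?_⟩
      · intro s hs
        rw [Finset.mem_singleton] at hs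
        rw [hs, hu]
      · intro s hs t ht hne
        rw [Finset.mem_singleton] at hs ht
        exact absurd (hs.trans ht.symm) hne
  push Not at hC1
  obtain ⟨s0, hs0, t0, ht0, hne0⟩ := Finset.one_lt_card.mp hC1
  have h0 := hD s0 hs0 t0 ht0 hne0
  have h0' := card_symmDiff_add s0 t0
  rw [hC s0 hs0, hC t0 ht0] at h0'
  by_cases hcase : 2 * w ≤ d + 1
  · refine conv 1 (step_zero w (by omega) (by rw [Fintype.card_fin]; exact hn) C hC ?_) (by omega)
    intro s hs t ht hne
    have ha := card_symmDiff_add s t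
    have hb := hD s hs t ht hne
    rw [hC s hs, hC t ht] at ha
    omega
  · have hI : ∀ s ∈ C, ∀ t ∈ C, s ≠ t → (s ∩ t).card ≤ 1 := by
      intro s hs t ht hne
      have ha := card_symmDiff_add s t
      have hb := hD s hs t ht hne
      rw [hC s hs, hC t ht] at ha
      omega
    by_cases hw3 : 3 ≤ w
    · exact conv 2 (step_one n w hw3 hn C hC hI) (by omega)
    · have hw2 : w = 2 := by omega
      subst hw2
      apply conv 2 ?_ (by omega)
      have hle : C.card ≤ (Finset.powersetCard 3 (Finset.univ : Finset (Fin n))).card := by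
        have h1 : C ⊆ Finset.powersetCard 2 (Finset.univ : Finset (Fin n)) := by
          intro s hs
          rw [Finset.mem_powersetCard]
          exact ⟨Finset.subset_univ s, hC s hs⟩
        refine le_trans (Finset.card_le_card h1) ?_
        rw [Finset.card_powersetCard, Finset.card_powersetCard, Finset.card_univ, Fintype.card_fin]
        exact Nat.choose_le_succ_of_lt_half_left (by omega)
      obtain ⟨C', hC'1, hC'2⟩ := Finset.exists_subset_card_eq hle
      refine ⟨C', hC'2, ?_, ?_⟩
      · intro s hs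
        exact (Finset.mem_powersetCard.mp (hC'1 hs)).2
      · intro s hs t ht hne
        have h1 := (Finset.mem_powersetCard.mp (hC'1 hs)).2
        have h2 := (Finset.mem_powersetCard.mp (hC'1 ht)).2
        by_contra hcon
        push Not at hcon
        have h3 : s ∩ t = s := Finset.eq_of_subset_of_card_le Finset.inter_subset_left (by omega)
        have h4 : s ∩ t = t := Finset.eq_of_subset_of_card_le Finset.inter_subset_right (by omega)
        exact hne (h3.symm.trans h4)

/-- Monotonicity up to weight `(d + 5) / 2`. -/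
theorem mono (n d w₁ w₂ : ℕ) (hd : 1 ≤ d) (h12 : w₁ ≤ w₂) (hn : 2 * w₂ ≤ n)
    (hwd : 2 * w₂ ≤ d + 5)
    (C : Finset (Finset (Fin n))) (hC : ∀ s ∈ C, s.card = w₁)
    (hD : ∀ s ∈ C, ∀ t ∈ C, s ≠ t → d ≤ (symmDiff s t).card) :
    ∃ C' : Finset (Finset (Fin n)), C'.card = C.card ∧ (∀ s ∈ C', s.card = w₂) ∧
      (∀ s ∈ C', ∀ t ∈ C', s ≠ t → d ≤ (symmDiff s t).card) := by
  induction w₂, h12 using Nat.le_induction with
  | base => exact ⟨C, rfl, hC, hD⟩
  | succ m hm ih =>
    obtain ⟨C1, h1, h2, h3⟩ := ih (by omega) (by omega)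
    obtain ⟨C2, h4, h5, h6⟩ := step n d m hd (by omega) (by omega) C1 h2 h3
    exact ⟨C2, h4.trans h1, h5, h6⟩

end Pool.Agent.Hhelper49.CWC
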