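import Pool.Agent.Hhelper49.CWC.Basic

set_option autoImplicit false

namespace Pool.Agent.Hhelper49.CWC

variable {V : Type*} [DecidableEq V]

/-- If all pairs of a set of at least four points are joined and every point is on at most two
blocks, the set lies in one block. -/
theorem in_block (C : Finset (Finset V))
    (hI : ∀ s ∈ C, ∀ t ∈ C, s ≠ t → (s ∩ t).card ≤ 1)
    (hr : ∀ x : V, (C.filter (fun s => x ∈ s)).card ≤ 2) (U : Finset V) (hU : 4 ≤ U.card)
    (hall : ∀ x ∈ U, ∀ y ∈ U, x ≠ y → ∃ s ∈ C, x ∈ s ∧ y ∈ s) : ∃ s ∈ C, U ⊆ s := by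
  -- two blocks through a point: any third equals one of them
  have htwo : ∀ x : V, ∀ s ∈ C, ∀ t ∈ C, ∀ u ∈ C, x ∈ s → x ∈ t → x ∈ u → s ≠ t →
      u = s ∨ u = t := by
    intro x s hs t ht u hu hxs hxt hxu hst
    by_contra hcon
    push Not at hcon
    have h3 : 2 < (C.filter (fun s => x ∈ s)).card := by
      rw [Finset.two_lt_card]
      exact ⟨s, by simp [hs, hxs], t, by simp [ht, hxt], u, by simp [hu, hxu], hst,
        hcon.1.symm, hcon.2.symm⟩
    have := hr x
    omega
  have hshare : ∀ s ∈ C, ∀ t ∈ C, s ≠ t → ∀ x y, x ∈ s → x ∈ t → y ∈ s → y ∈ t → x = y := by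
    intro s hs t ht hne x y hxs hxt hys hyt
    have hle := hI s hs t ht hne
    rw [Finset.card_le_one] at hle
    exact hle x (Finset.mem_inter.mpr ⟨hxs, hxt⟩) y (Finset.mem_inter.mpr ⟨hys, hyt⟩)
  by_contra hno
  push Not at hno
  have hno' : ∀ s ∈ C, ∃ z ∈ U, z ∉ s := by
    intro s hs
    have := hno s hs
    rw [Finset.not_subset] at this
    exact this
  obtain ⟨x, hx⟩ : U.Nonempty := Finset.card_pos.mp (by omega)
  obtain ⟨x', hx', hxx'⟩ : ∃ x' ∈ U, x' ≠ x := Finset.exists_mem_ne (by omega) x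
  obtain ⟨B, hB, hxB, -⟩ := hall x hx x' hx' hxx'.symm
  obtain ⟨y, hy, hyB⟩ := hno' B hB
  have hxy : x ≠ y := by
    rintro rfl
    exact hyB hxB
  obtain ⟨B', hB', hxB', hyB'⟩ := hall x hx y hy hxy
  have hBB' : B ≠ B' := by
    rintro rfl
    exact hyB hyB'
  obtain ⟨z, hz, hzB'⟩ := hno' B' hB'
  have hxz : x ≠ z := by
    rintro rfl
    exact hzB' hxB'
  have hcov : ∀ u ∈ U, u ≠ x → u ∈ B ∨ u ∈ B' := by
    intro u hu hux
    obtain ⟨s, hs, hxs, hus⟩ := hall x hx u hu hux.symm
    rcases htwo x B hB B' hB' s hs hxB hxB' hxs hBB' with rfl | rfl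
    · exact Or.inl hus
    · exact Or.inr hus
  have hzB : z ∈ B := by
    rcases hcov z hz hxz.symm with h | h
    · exact h
    · exact absurd h hzB'
  have hyz : y ≠ z := by
    rintro rfl
    exact hyB hzB
  obtain ⟨B2, hB2, hyB2, hzB2⟩ := hall y hy z hz hyz
  have hB2B : B2 ≠ B := by
    rintro rfl
    exact hyB hyB2
  have hB2B' : B2 ≠ B' := by
    rintro rfl
    exact hzB' hzB2
  have hsub : U ⊆ {x, y, z} := by
    intro u hu
    simp only [Finset.mem_insert, Finset.mem_singleton]
    by_cases hux : u = x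
    · exact Or.inl hux
    right
    by_cases huy : u = y
    · exact Or.inl huy
    by_cases huz : u = z
    · exact Or.inr huz
    exfalso
    rcases hcov u hu hux with h | h
    · -- u ∈ B
      obtain ⟨s, hs, hus, hys⟩ := hall u hu y hy huy
      have hsB' : s ≠ B' := by
        rintro rfl
        exact hux (hshare B hB s hs hBB' u x h hus hxB hxB')
      have : s = B2 := by
        rcases htwo y B' hB' B2 hB2 s hs hyB' hyB2 hys hB2B'.symm with h' | h'
        · exact absurd h' hsB'
        · exact h'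
      subst this
      exact huz (hshare B hB s hs hB2B.symm u z h hus hzB hzB2)
    · -- u ∈ B'
      obtain ⟨s, hs, hus, hzs⟩ := hall u hu z hz huz
      have hsB : s ≠ B := by
        rintro rfl
        exact hux (hshare s hs B' hB' hBB' u x hus h hxB hxB')
      have : s = B2 := by
        rcases htwo z B hB B2 hB2 s hs hzB hzB2 hzs hB2B.symm with h' | h'
        · exact absurd h' hsB
        · exact h'
      subst this
      exact huy (hshare B' hB' s hs hB2B'.symm u y h hus hyB' hyB2)
  have h3 : U.card ≤ 3 := le_trans (Finset.card_le_card hsub) Finset.card_le_three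
  omega

variable [Fintype V]

/-- Exactly one block through `p`. -/
theorem case_one (C : Finset (Finset V)) (w : ℕ) (hw : 3 ≤ w) (hC : ∀ s ∈ C, s.card = w)
    (hI : ∀ s ∈ C, ∀ t ∈ C, s ≠ t → (s ∩ t).card ≤ 1) (hn : 2 * w + 2 ≤ Fintype.card V)
    (hr : ∀ x : V, (C.filter (fun s => x ∈ s)).card ≤ 2) (p : V) (a : Finset V)
    (ha : a ∈ C) (hpa : p ∈ a) (honly : ∀ s ∈ C, p ∈ s → s = a) : Has V C.card (w + 1) 2 := by
  have hUcard : aᶜ.card = Fintype.card V - w := by
    rw [Finset.card_compl, hC a ha]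
  obtain ⟨x, hx, y, hy, hxy, hno⟩ : ∃ x ∈ aᶜ, ∃ y ∈ aᶜ, x ≠ y ∧ ∀ s ∈ C, x ∈ s → y ∉ s := by
    by_contra hcon
    push Not at hcon
    obtain ⟨s, hs, hsub⟩ := in_block C hI hr aᶜ (by omega) (fun x hx y hy hxy => by
      obtain ⟨s, hs, h1, h2⟩ := hcon x hx y hy hxy
      exact ⟨s, hs, h1, h2⟩)
    have := Finset.card_le_card hsub
    rw [hC s hs] at this
    omega
  rw [Finset.mem_compl] at hx hy
  refine ext_lemma C w (by omega) hC hI p (fun _ => {x, y}) ?_ ?_ ?_
  · intro s hs hps
    have hsa := honly s hs hps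
    subst hsa
    refine ⟨Finset.card_pair hxy, ?_⟩
    rw [Finset.disjoint_left]
    intro u hu hus
    simp only [Finset.mem_insert, Finset.mem_singleton] at hu
    rcases hu with rfl | rfl
    · exact hx hus
    · exact hy hus
  · intro s _ _ t ht _
    rw [Finset.card_le_one]
    intro u hu v hv
    simp only [Finset.mem_insert, Finset.mem_singleton, Finset.mem_inter] at hu hv
    rcases hu with ⟨rfl | rfl, hut⟩
    · rcases hv with ⟨rfl | rfl, hvt⟩
      · rfl
      · exact absurd hvt (hno t ht hut)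
    · rcases hv with ⟨rfl | rfl, hvt⟩
      · exact absurd hut (hno t ht hvt)
      · rfl
  · intro s hs hps t ht hpt hne
    exact absurd ((honly s hs hps).trans (honly t ht hpt).symm) hne

/-- All points on exactly two blocks. -/
theorem case_two (C : Finset (Finset V)) (w : ℕ) (hw : 3 ≤ w) (hC : ∀ s ∈ C, s.card = w)
    (hI : ∀ s ∈ C, ∀ t ∈ C, s ≠ t → (s ∩ t).card ≤ 1) (hn : 2 * w + 3 ≤ Fintype.card V)
    (hr : ∀ x : V, (C.filter (fun s => x ∈ s)).card = 2) : Has V C.card (w + 1) 2 := by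
  obtain ⟨p⟩ : Nonempty V := Fintype.card_pos_iff.mp (by omega)
  obtain ⟨a, b, hab, hfil⟩ := Finset.card_eq_two.mp (hr p)
  have hthrough : ∀ s, (s ∈ C ∧ p ∈ s) ↔ (s = a ∨ s = b) := by
    intro s
    have := congrArg (fun F => s ∈ F) hfil
    simpa [Finset.mem_filter] using this
  obtain ⟨ha, hpa⟩ := (hthrough a).mpr (Or.inl rfl)
  obtain ⟨hb, hpb⟩ := (hthrough b).mpr (Or.inr rfl)
  have hshare : ∀ s ∈ C, ∀ t ∈ C, s ≠ t → ∀ x y, x ∈ s → x ∈ t → y ∈ s → y ∈ t → x = y := by
    intro s hs t ht hne x y hxs hxt hys hyt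
    have hle := hI s hs t ht hne
    rw [Finset.card_le_one] at hle
    exact hle x (Finset.mem_inter.mpr ⟨hxs, hxt⟩) y (Finset.mem_inter.mpr ⟨hys, hyt⟩)
  -- the set O
  have hOcard : 4 ≤ ((a ∪ b)ᶜ).card := by
    have h1 : (a ∪ b).card + (a ∩ b).card = a.card + b.card := Finset.card_union_add_card_inter a b
    have h2 : 0 < (a ∩ b).card := Finset.card_pos.mpr ⟨p, Finset.mem_inter.mpr ⟨hpa, hpb⟩⟩
    rw [Finset.card_compl]
    rw [hC a ha, hC b hb] at h1
    omega
  obtain ⟨x, hx, y, hy, hxy, hno⟩ : ∃ x ∈ (a ∪ b)ᶜ, ∃ y ∈ (a ∪ b)ᶜ, x ≠ y ∧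
      ∀ s ∈ C, x ∈ s → y ∉ s := by
    by_contra hcon
    push Not at hcon
    obtain ⟨s, hs, hsub⟩ := in_block C hI (fun x => (hr x).le) (a ∪ b)ᶜ hOcard
      (fun x hx y hy hxy => by
        obtain ⟨s, hs, h1, h2⟩ := hcon x hx y hy hxy
        exact ⟨s, hs, h1, h2⟩)
    have hle : ((a ∪ b)ᶜ).card ≤ w := by
      have := Finset.card_le_card hsub
      rwa [hC s hs] at this
    obtain ⟨x, hx⟩ : ((a ∪ b)ᶜ).Nonempty := Finset.card_pos.mp (by omega)
    have hxs : x ∈ s := hsub hx
    -- the second block through x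
    obtain ⟨t, ht, hts⟩ := Finset.exists_mem_ne (s := C.filter (fun s => x ∈ s))
      (by rw [hr x]; norm_num) s
    rw [Finset.mem_filter] at ht
    have hxa : x ∉ a := fun h => Finset.mem_compl.mp hx (Finset.mem_union_left _ h)
    have hxb : x ∉ b := fun h => Finset.mem_compl.mp hx (Finset.mem_union_right _ h)
    have hta : t ≠ a := by
      rintro rfl
      exact hxa ht.2
    have htb : t ≠ b := by
      rintro rfl
      exact hxb ht.2
    have hsubt : t ⊆ {x} ∪ ((t ∩ a) ∪ (t ∩ b)) := by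
      intro u hu
      simp only [Finset.mem_union, Finset.mem_singleton, Finset.mem_inter]
      by_cases hua : u ∈ a
      · exact Or.inr (Or.inl ⟨hu, hua⟩)
      by_cases hub : u ∈ b
      · exact Or.inr (Or.inr ⟨hu, hub⟩)
      left
      have huO : u ∈ (a ∪ b)ᶜ := by
        rw [Finset.mem_compl, Finset.mem_union]
        rintro (h | h)
        · exact hua h
        · exact hub h
      exact hshare t ht.1 s hs hts u x hu (hsub huO) ht.2 hxs
    have hcard : t.card ≤ 1 + (1 + 1) := by
      calc t.card ≤ ({x} ∪ ((t ∩ a) ∪ (t ∩ b))).card := Finset.card_le_card hsubt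
        _ ≤ ({x} : Finset V).card + ((t ∩ a) ∪ (t ∩ b)).card := Finset.card_union_le _ _
        _ ≤ 1 + ((t ∩ a).card + (t ∩ b).card) := by
            rw [Finset.card_singleton]
            exact Nat.add_le_add_left (Finset.card_union_le _ _) 1
        _ ≤ 1 + (1 + 1) :=
            Nat.add_le_add_left (Nat.add_le_add (hI t ht.1 a ha hta) (hI t ht.1 b hb htb)) 1
    rw [hC t ht.1] at hcard
    omega
  have hxa : x ∉ a := fun h => Finset.mem_compl.mp hx (Finset.mem_union_left _ h)
  have hxb : x ∉ b := fun h => Finset.mem_compl.mp hx (Finset.mem_union_right _ h)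
  have hya : y ∉ a := fun h => Finset.mem_compl.mp hy (Finset.mem_union_left _ h)
  have hyb : y ∉ b := fun h => Finset.mem_compl.mp hy (Finset.mem_union_right _ h)
  obtain ⟨X, hX1, hX2⟩ := Finset.exists_subset_card_eq (s := b.erase p) (n := 2)
    (by rw [Finset.card_erase_of_mem hpb, hC b hb]; omega)
  have hXmem : ∀ u ∈ X, u ≠ p ∧ u ∈ b := fun u hu =>
    ⟨Finset.ne_of_mem_erase (hX1 hu), Finset.mem_of_mem_erase (hX1 hu)⟩
  have hXa : ∀ u ∈ X, u ∉ a := by
    intro u hu hua
    exact (hXmem u hu).1 (hshare a ha b hb hab u p hua (hXmem u hu).2 hpa hpb)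
  -- helper for the pair condition
  have hpair : ((a ∩ {x, y}) ∪ (X ∩ b) ∪ (X ∩ {x, y})).card ≤ 2 := by
    rw [← hX2]
    apply Finset.card_le_card
    intro u hu
    simp only [Finset.mem_union, Finset.mem_inter, Finset.mem_insert, Finset.mem_singleton] at hu
    rcases hu with (⟨hua, rfl | rfl⟩ | ⟨hu, -⟩) | ⟨hu, -⟩
    · exact absurd hua hxa
    · exact absurd hua hya
    · exact hu
    · exact hu
  refine ext_lemma C w (by omega) hC hI p (fun s => if s = a then X else {x, y}) ?_ ?_ ?_
  · intro s hs hps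
    rcases (hthrough s).mp ⟨hs, hps⟩ with rfl | rfl
    · simp only [if_true]
      exact ⟨hX2, Finset.disjoint_left.mpr hXa⟩
    · simp only [hab.symm, if_false]
      refine ⟨Finset.card_pair hxy, ?_⟩
      rw [Finset.disjoint_left]
      intro u hu hus
      simp only [Finset.mem_insert, Finset.mem_singleton] at hu
      rcases hu with rfl | rfl
      · exact hxb hus
      · exact hyb hus
  · intro s hs hps t ht hpt
    rcases (hthrough s).mp ⟨hs, hps⟩ with rfl | rfl
    · simp only [if_true]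
      have hbt : b ≠ t := by
        rintro rfl
        exact hpt hpb
      refine le_trans (Finset.card_le_card ?_) (hI b hb t ht hbt)
      intro u hu
      rw [Finset.mem_inter] at hu ⊢
      exact ⟨(hXmem u hu.1).2, hu.2⟩
    · simp only [hab.symm, if_false]
      rw [Finset.card_le_one]
      intro u hu v hv
      simp only [Finset.mem_insert, Finset.mem_singleton, Finset.mem_inter] at hu hv
      rcases hu with ⟨rfl | rfl, hut⟩
      · rcases hv with ⟨rfl | rfl, hvt⟩
        · rfl
        · exact absurd hvt (hno t ht hut)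
      · rcases hv with ⟨rfl | rfl, hvt⟩
        · exact absurd hut (hno t ht hvt)
        · rfl
  · intro s hs hps t ht hpt hne
    rcases (hthrough s).mp ⟨hs, hps⟩ with rfl | rfl
    · rcases (hthrough t).mp ⟨ht, hpt⟩ with rfl | rfl
      · exact absurd rfl hne
      · simp only [if_true, hab.symm, if_false]
        exact hpair
    · rcases (hthrough t).mp ⟨ht, hpt⟩ with rfl | rfl
      · simp only [if_true, hab.symm, if_false]
        have heq : (s ∩ X) ∪ ({x, y} ∩ t) ∪ ({x, y} ∩ X)
            = (t ∩ {x, y}) ∪ (X ∩ s) ∪ (X ∩ {x, y}) := by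
          ext u
          simp only [Finset.mem_union, Finset.mem_inter]
          tauto
        rw [heq]
        exact hpair
      · exact absurd rfl hne

end Pool.Agent.Hhelper49.CWC
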