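import Pool.Agent.Hhelper49.CWC.Bounds

set_option autoImplicit false

namespace Pool.Agent.Hhelper49.CWC

/-- Comparison of the packing bound with a lower bound `C(n, w+1) / Q`. -/
theorem compare (n w δ Q c c' : ℕ) (hδ : 1 ≤ δ) (hδw : δ ≤ w) (hwn : w + 1 ≤ n)
    (hcond : (w + 1) * Q ≤ δ * (n - (w - δ + 1)).choose δ)
    (h1 : c * w.choose (w - δ + 1) ≤ n.choose (w - δ + 1))
    (h2 : n.choose (w + 1) ≤ c' * Q) : c ≤ c' := by
  set t := w - δ + 1 with ht
  have htw : t ≤ w := by omega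
  have hδt : w + 1 - t = δ := by omega
  have e1 : n.choose (w + 1) * (w + 1).choose t = n.choose t * (n - t).choose δ := by
    have := Nat.choose_mul (n := n) (k := w + 1) (s := t) (by omega)
    rwa [hδt] at this
  have e2 : w.choose t * (w + 1) = (w + 1).choose t * δ := by
    have := Nat.choose_mul_succ_eq w t
    rwa [hδt] at this
  have hpos : 0 < δ * (n - t).choose δ := by
    apply Nat.mul_pos (by omega)
    exact Nat.choose_pos (by omega)
  have hw : 0 < w.choose t := Nat.choose_pos htw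
  have h3 : n.choose t * (δ * (n - t).choose δ) ≤ (c' * w.choose t) * (δ * (n - t).choose δ) := by
    calc n.choose t * (δ * (n - t).choose δ) = (n.choose t * (n - t).choose δ) * δ := by ring
      _ = (n.choose (w + 1) * (w + 1).choose t) * δ := by rw [e1]
      _ = n.choose (w + 1) * ((w + 1).choose t * δ) := by ring
      _ = n.choose (w + 1) * (w.choose t * (w + 1)) := by rw [e2]
      _ ≤ (c' * Q) * (w.choose t * (w + 1)) := Nat.mul_le_mul_right _ h2
      _ = (c' * w.choose t) * ((w + 1) * Q) := by ring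
      _ ≤ (c' * w.choose t) * (δ * (n - t).choose δ) := Nat.mul_le_mul_left _ hcond
  have h4 : n.choose t ≤ c' * w.choose t := Nat.le_of_mul_le_mul_right h3 hpos
  exact Nat.le_of_mul_le_mul_right (h1.trans h4) hw

/-- The conjectured inequality `A(n,d,w₁) ≤ A(n,d,w₂)`. -/
def Mono (n d w₁ w₂ : ℕ) : Prop :=
  ∀ C : Finset (Finset (Fin n)), (∀ s ∈ C, s.card = w₁) →
    (∀ s ∈ C, ∀ t ∈ C, s ≠ t → d ≤ (symmDiff s t).card) →
    ∃ C' : Finset (Finset (Fin n)), C'.card = C.card ∧ (∀ s ∈ C', s.card = w₂) ∧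
      (∀ s ∈ C', ∀ t ∈ C', s ≠ t → d ≤ (symmDiff s t).card)

theorem Mono.chain (n d w₁ w₂ : ℕ) (h12 : w₁ ≤ w₂) (h : ∀ w, w < w₂ → Mono n d w (w + 1)) :
    Mono n d w₁ w₂ := by
  induction w₂, h12 using Nat.le_induction with
  | base => exact fun C hC hD => ⟨C, rfl, hC, hD⟩
  | succ m hm ih =>
    intro C hC hD
    obtain ⟨C1, h1, h2, h3⟩ := ih (fun w hw => h w (by omega)) C hC hD
    obtain ⟨C2, h4, h5, h6⟩ := h m (by omega) C1 h2 h3
    exact ⟨C2, h4.trans h1, h5, h6⟩

/-- One step for distance at most two. -/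
theorem step_two (n d w : ℕ) (hd : 1 ≤ d) (hd2 : d ≤ 2) (hn : 2 * w + 2 ≤ n) :
    Mono n d w (w + 1) := by
  intro C hC hD
  apply step_of n d w 1 (by omega) (by omega) (by omega) C hC hD
  intro hδw h1
  refine ⟨Finset.powersetCard (w + 1) Finset.univ, ?_, ?_, ?_⟩
  · rw [Finset.card_powersetCard, Finset.card_univ, Fintype.card_fin]
    have h2 : w - 1 + 1 = w := by omega
    rw [h2, Nat.choose_self, mul_one] at h1
    exact h1.trans (Nat.choose_le_succ_of_lt_half_left (by omega))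
  · intro s hs
    exact (Finset.mem_powersetCard.mp hs).2
  · intro s hs t ht hne
    have h1 := (Finset.mem_powersetCard.mp hs).2
    have h2 := (Finset.mem_powersetCard.mp ht).2
    by_contra hcon
    push Not at hcon
    have h3 : s ∩ t = s := Finset.eq_of_subset_of_card_le Finset.inter_subset_left (by omega)
    have h4 : s ∩ t = t := Finset.eq_of_subset_of_card_le Finset.inter_subset_right (by omega)
    exact hne (h3.symm.trans h4)

/-- One step for distance at most four. -/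
theorem step_four (n d w : ℕ) (hd : 1 ≤ d) (hd4 : d ≤ 4) (hn : 2 * w + 2 ≤ n)
    (hcond : (w + 1) * n ≤ (n - w + 1) * (n - w)) : Mono n d w (w + 1) := by
  by_cases hd2 : d ≤ 2
  · exact step_two n d w hd hd2 hn
  intro C hC hD
  apply step_of n d w 2 (by omega) (by omega) (by omega) C hC hD
  intro hδw h1
  obtain ⟨C', h2, h3, h4⟩ := sum_code n (w + 1) (by omega)
  refine ⟨C', ?_, h3, h4⟩
  refine compare n w 2 n C.card C'.card (by omega) hδw (by omega) ?_ h1 h2
  have h5 : n - (w - 2 + 1) = n - w + 1 := by omega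
  rw [h5]
  have h6 : 2 * (n - w + 1).choose 2 = (n - w + 1) * (n - w) := by
    have := Nat.add_one_mul_choose_eq (n - w) 1
    rw [Nat.choose_one_right] at this
    rw [this]
    ring
  rw [h6]
  exact hcond

/-- One step for a fixed distance and `w + 1 ≤ c_d n`. -/
theorem step_fixed (n d w : ℕ) (hd : 1 ≤ d)
    (hn : (w + 1) * 2 ^ d * ((d + 1) / 2 - 1).factorial ≤ n) : Mono n d w (w + 1) := by
  intro C hC hD
  set δ := (d + 1) / 2 with hδdef
  have hδ1 : 1 ≤ δ := by omega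
  have hfac : 1 ≤ (δ - 1).factorial := Nat.factorial_pos _
  have h2d : 2 ≤ 2 ^ d := by
    calc 2 = 2 ^ 1 := rfl
      _ ≤ 2 ^ d := Nat.pow_le_pow_right (by norm_num) hd
  have hn2 : 2 * (w + 1) ≤ n := by
    calc 2 * (w + 1) = (w + 1) * 2 * 1 := by ring
      _ ≤ (w + 1) * 2 ^ d * (δ - 1).factorial :=
        Nat.mul_le_mul (Nat.mul_le_mul_left _ h2d) hfac
      _ ≤ n := hn
  apply step_of n d w δ (by omega) (by omega) (by omega) C hC hD
  intro hδw h1
  obtain ⟨p, hp, hnp, hp2⟩ := Nat.exists_prime_lt_and_le_two_mul n (by omega)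
  obtain ⟨C', h2, h3, h4⟩ := gs_code n (w + 1) δ p hp hnp.le
  refine ⟨C', ?_, h3, h4⟩
  refine compare n w δ (p ^ (δ - 1)) C.card C'.card hδ1 hδw (by omega) ?_ h1 h2
  set m := n - (w - δ + 1) with hm
  have hmδ : m + 1 - δ = n - w := by omega
  -- descending factorial bound
  have hdf : (n - w) ^ δ ≤ m.descFactorial δ := by
    have := Nat.pow_sub_le_descFactorial m δ
    rwa [hmδ] at this
  have hdf2 : m.descFactorial δ = (δ * m.choose δ) * (δ - 1).factorial := by
    rw [Nat.descFactorial_eq_factorial_mul_choose]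
    have : δ.factorial = δ * (δ - 1).factorial := (Nat.mul_factorial_pred (by omega)).symm
    rw [this]
    ring
  have hhalf : n ^ δ ≤ 2 ^ δ * (n - w) ^ δ := by
    rw [← mul_pow]
    exact Nat.pow_le_pow_left (by omega) δ
  have hexp : 2 ^ δ * 2 ^ (δ - 1) ≤ 2 ^ d := by
    rw [← pow_add]
    exact Nat.pow_le_pow_right (by norm_num) (by omega)
  have hnd : n * n ^ (δ - 1) = n ^ δ := by
    rw [← pow_succ']
    congr 1
    omega
  have key : (2 ^ δ * (δ - 1).factorial) * ((w + 1) * p ^ (δ - 1)) ≤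
      (2 ^ δ * (δ - 1).factorial) * (δ * m.choose δ) := by
    calc (2 ^ δ * (δ - 1).factorial) * ((w + 1) * p ^ (δ - 1))
        ≤ (2 ^ δ * (δ - 1).factorial) * ((w + 1) * (2 * n) ^ (δ - 1)) :=
          Nat.mul_le_mul_left _ (Nat.mul_le_mul_left _ (Nat.pow_le_pow_left hp2 _))
      _ = ((w + 1) * (2 ^ δ * 2 ^ (δ - 1)) * (δ - 1).factorial) * n ^ (δ - 1) := by
          rw [mul_pow]
          ring
      _ ≤ ((w + 1) * 2 ^ d * (δ - 1).factorial) * n ^ (δ - 1) :=
          Nat.mul_le_mul_right _ (Nat.mul_le_mul_right _ (Nat.mul_le_mul_left _ hexp))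
      _ ≤ n * n ^ (δ - 1) := Nat.mul_le_mul_right _ hn
      _ = n ^ δ := hnd
      _ ≤ 2 ^ δ * (n - w) ^ δ := hhalf
      _ ≤ 2 ^ δ * m.descFactorial δ := Nat.mul_le_mul_left _ hdf
      _ = (2 ^ δ * (δ - 1).factorial) * (δ * m.choose δ) := by
          rw [hdf2]
          ring
  exact Nat.le_of_mul_le_mul_left key (by positivity)

/-- One step for `n` large compared with the weight. -/
theorem step_large (n d w : ℕ) (hd : 1 ≤ d)
    (hn : (w + 1) * ((w + 1).choose ((d + 1) / 2 - 1) + 1) ≤ n) : Mono n d w (w + 1) := by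
  intro C hC hD
  set δ := (d + 1) / 2 with hδdef
  have hδ1 : 1 ≤ δ := by omega
  have hwn : w + 1 ≤ n := by
    refine le_trans ?_ hn
    exact Nat.le_mul_of_pos_right _ (Nat.succ_pos _)
  apply step_of n d w δ hwn (by omega) (by omega) C hC hD
  intro hδw h1
  set t := w - δ + 1 with ht
  obtain ⟨C', h2, h3, h4⟩ := gilbert n (w + 1) (t + 1) (by omega) hwn
  refine ⟨C', ?_, h3, ?_⟩
  · have hK : (w + 1).choose (δ - 1) = (w + 1).choose (t + 1) := by
      apply Nat.choose_symm_of_eq_add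
      omega
    rw [hK] at hn
    set K := (w + 1).choose (t + 1) with hKdef
    have e1 : n.choose (t + 1) * (t + 1) = n.choose t * (n - t) := Nat.choose_succ_right_eq n t
    have e2 : (w + 1) * w.choose t = K * (t + 1) := Nat.add_one_mul_choose_eq w t
    have hnt : K * (w + 1) ≤ n - t := by
      have h5 : (w + 1) * (K + 1) = K * (w + 1) + (w + 1) := by ring
      omega
    have hKpos : 0 < K := Nat.choose_pos (by omega)
    have h6 : n.choose t * (K * (w + 1)) ≤ (C'.card * w.choose t) * (K * (w + 1)) := by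
      calc n.choose t * (K * (w + 1)) ≤ n.choose t * (n - t) := Nat.mul_le_mul_left _ hnt
        _ = n.choose (t + 1) * (t + 1) := e1.symm
        _ ≤ (C'.card * K ^ 2) * (t + 1) := Nat.mul_le_mul_right _ h2
        _ = C'.card * K * (K * (t + 1)) := by ring
        _ = C'.card * K * ((w + 1) * w.choose t) := by rw [e2]
        _ = (C'.card * w.choose t) * (K * (w + 1)) := by ring
    have h7 : n.choose t ≤ C'.card * w.choose t :=
      Nat.le_of_mul_le_mul_right h6 (Nat.mul_pos hKpos (Nat.succ_pos _))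
    exact Nat.le_of_mul_le_mul_right (h1.trans h7) (Nat.choose_pos (by omega))
  · intro s hs u hu hne
    have := h4 s hs u hu hne
    omega

/-- Thirty 5-subsets of a 10-set pairwise meeting in at most three points. -/
def L30 : List (Finset (Fin 10)) :=
  [{0, 1, 2, 3, 5}, {1, 2, 3, 4, 6}, {2, 3, 4, 5, 7}, {3, 4, 5, 6, 8}, {4, 5, 6, 7, 9},
   {0, 5, 6, 7, 8}, {1, 6, 7, 8, 9}, {0, 2, 7, 8, 9}, {0, 1, 3, 8, 9}, {0, 1, 2, 4, 9},
   {0, 1, 2, 6, 8}, {1, 2, 3, 7, 9}, {0, 2, 3, 4, 8}, {1, 3, 4, 5, 9}, {0, 2, 4, 5, 6},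
   {1, 3, 5, 6, 7}, {2, 4, 6, 7, 8}, {3, 5, 7, 8, 9}, {0, 4, 6, 8, 9}, {0, 1, 5, 7, 9},
   {0, 1, 4, 5, 8}, {1, 2, 5, 6, 9}, {0, 2, 3, 6, 7}, {1, 3, 4, 7, 8}, {2, 4, 5, 8, 9},
   {0, 3, 5, 6, 9}, {0, 1, 4, 6, 7}, {1, 2, 5, 7, 8}, {2, 3, 6, 8, 9}, {0, 3, 4, 7, 9}]

theorem L30_pair : L30.Pairwise (fun s t => (s ∩ t).card ≤ 3) := by decide +kernel

theorem L30_card : ∀ s ∈ L30, s.card = 5 := by decide +kernel

theorem has_thirty : ∃ C' : Finset (Finset (Fin 10)), 30 ≤ C'.card ∧ (∀ s ∈ C', s.card = 5) ∧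
    (∀ s ∈ C', ∀ t ∈ C', s ≠ t → (s ∩ t).card + 2 ≤ 5) := by
  have hall : ∀ s ∈ L30, ∀ t ∈ L30, s ≠ t → (s ∩ t).card ≤ 3 := by
    have : Std.Symm (fun s t : Finset (Fin 10) => (s ∩ t).card ≤ 3) :=
      ⟨fun s t h => by rwa [Finset.inter_comm]⟩
    intro s hs t ht hne
    exact L30_pair.forall hs ht hne
  have hnodup : L30.Nodup := by
    refine List.Pairwise.imp_of_mem ?_ L30_pair
    rintro s t hs _ h rfl
    rw [Finset.inter_self, L30_card s hs] at h
    omega
  refine ⟨L30.toFinset, ?_, ?_, ?_⟩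
  · rw [List.toFinset_card_of_nodup hnodup]
    decide
  · intro s hs
    exact L30_card s (List.mem_toFinset.mp hs)
  · intro s hs t ht hne
    have := hall s (List.mem_toFinset.mp hs) t (List.mem_toFinset.mp ht) hne
    omega

/-- All lengths and distances, weights at most five. -/
theorem mono_five (n d w₁ w₂ : ℕ) (hd : 1 ≤ d) (h12 : w₁ ≤ w₂) (hn : 2 * w₂ ≤ n)
    (h5 : w₂ ≤ 5) : Mono n d w₁ w₂ := by
  apply Mono.chain n d w₁ w₂ h12
  intro w hw
  by_cases h1 : 2 * w ≤ d + 3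
  · exact fun C hC hD => step n d w hd (by omega) h1 C hC hD
  by_cases hd2 : d ≤ 2
  · exact step_two n d w hd hd2 (by omega)
  have hw4 : w = 4 := by omega
  subst hw4
  by_cases hn11 : 11 ≤ n
  · apply step_four n d 4 hd (by omega) (by omega)
    obtain ⟨m, rfl⟩ : ∃ m, n = m + 11 := ⟨n - 11, by omega⟩
    have e1 : m + 11 - 4 + 1 = m + 8 := by omega
    have e2 : m + 11 - 4 = m + 7 := by omega
    rw [e1, e2]
    nlinarith
  · have hn10 : n = 10 := by omega
    subst hn10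
    intro C hC hD
    apply step_of 10 d 4 2 (by omega) (by omega) (by omega) C hC hD
    intro _ h2
    obtain ⟨C', h3, h4, h5⟩ := has_thirty
    refine ⟨C', ?_, h4, h5⟩
    have h6 : C.card * 4 ≤ 120 := by simpa [Nat.choose] using h2
    omega

/-- Fixed distance, weights at most `c_d n`. -/
theorem mono_fixed (n d w₁ w₂ : ℕ) (hd : 1 ≤ d) (h12 : w₁ ≤ w₂)
    (hn : (d ≤ 4 ∧ 8 * w₂ ≤ 3 * n) ∨ w₂ * 2 ^ d * ((d + 1) / 2 - 1).factorial ≤ n) :
    Mono n d w₁ w₂ := by
  apply Mono.chain n d w₁ w₂ h12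
  intro w hw
  rcases hn with ⟨hd4, hn⟩ | hn
  · apply step_four n d w hd hd4 (by omega)
    obtain ⟨m, hm⟩ : ∃ m, n = w + m := ⟨n - w, by omega⟩
    have e2 : n - w = m := by omega
    rw [e2, hm]
    have h1 : 5 * w + 8 ≤ 3 * m := by omega
    nlinarith
  · apply step_fixed n d w hd
    refine le_trans ?_ hn
    exact Nat.mul_le_mul_right _ (Nat.mul_le_mul_right _ hw)

/-- Length large compared with the weight. -/
theorem mono_large (n d w₁ w₂ : ℕ) (hd : 1 ≤ d) (h12 : w₁ ≤ w₂)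
    (hn : w₂ * (w₂.choose ((d + 1) / 2 - 1) + 1) ≤ n) : Mono n d w₁ w₂ := by
  apply Mono.chain n d w₁ w₂ h12
  intro w hw
  apply step_large n d w hd
  refine le_trans ?_ hn
  exact Nat.mul_le_mul hw (Nat.add_le_add_right (Nat.choose_le_choose _ hw) 1)

end Pool.Agent.Hhelper49.CWC
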